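import Pool.Graph.R_pool_sql_team_seeded_63374d34.N303.KQ.Cor

/-!
# EP: abelian groups are hyperlinear
-/

set_option autoImplicit false

namespace Pool.Agent.Helper12.EP

open Matrix Finset
open Pool.Agent.H21R2

noncomputable section

/-- the inclusion of the rational numbers modulo the integers -/
def qz : AddCircle (1 : ℚ) →+ AddCircle (1 : ℝ) :=
  QuotientAddGroup.map _ _ (Rat.castHom ℝ).toAddMonoidHom (by
    intro x hx
    obtain ⟨n, rfl⟩ := AddSubgroup.mem_zmultiples_iff.1 hx
    refine AddSubgroup.mem_zmultiples_iff.2 ⟨n, ?_⟩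
    simp)

theorem qz_injective : Function.Injective qz := by
  rw [injective_iff_map_eq_zero]
  intro a ha
  obtain ⟨x, rfl⟩ := QuotientAddGroup.mk_surjective a
  have h1 : (QuotientAddGroup.mk ((x : ℝ)) : AddCircle (1 : ℝ)) = 0 := ha
  rw [QuotientAddGroup.eq_zero_iff] at h1
  obtain ⟨n, hn⟩ := AddSubgroup.mem_zmultiples_iff.1 h1
  rw [QuotientAddGroup.eq_zero_iff]
  refine AddSubgroup.mem_zmultiples_iff.2 ⟨n, ?_⟩
  have h2 : ((n : ℚ) : ℝ) = (x : ℝ) := by
    rw [← hn]
    simp
  have h3 : (n : ℚ) = x := by exact_mod_cast h2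
  rw [← h3]
  simp

/-- Characters separate the elements of an abelian group. -/
theorem exists_circle {A : Type} [CommGroup A] {g : A} (hg : g ≠ 1) : ∃ χ : A →* Circle, χ g ≠ 1 := by
  have hg' : (Additive.ofMul g) ≠ 0 := hg
  obtain ⟨c, hc⟩ := CharacterModule.exists_character_apply_ne_zero_of_ne_zero hg'
  refine ⟨{ toFun := fun a => AddCircle.toCircle (qz (c (Additive.ofMul a)))
            map_one' := ?_
            map_mul' := fun a b => ?_ }, ?_⟩
  · rw [ofMul_one, map_zero, map_zero, AddCircle.toCircle_zero]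
  · rw [ofMul_mul, map_add, map_add, AddCircle.toCircle_add]
  · intro h
    apply hc
    apply qz_injective
    apply AddCircle.injective_toCircle (T := (1 : ℝ)) one_ne_zero
    rw [map_zero, AddCircle.toCircle_zero]
    exact h

/-- scalar matrices of size one -/
def sc (z : Circle) : unitaryGroup Unit ℂ :=
  ⟨Matrix.of fun _ _ => (z : ℂ), by
    rw [mem_unitaryGroup_iff']
    ext i j
    rw [star_eq_conjTranspose, mul_apply]
    simp only [conjTranspose_apply, Matrix.of_apply, univ_unique, sum_const, card_singleton,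
      one_smul]
    rw [Matrix.one_apply_eq]
    have h1 := Circle.normSq_coe z
    rw [Complex.star_def, ← Complex.normSq_eq_conj_mul_self, h1, Complex.ofReal_one]⟩

theorem sc_mul (z w : Circle) : (sc (z * w)).1 = (sc z).1 * (sc w).1 := by
  ext i j
  rw [mul_apply]
  simp [sc]

theorem sc_one : sc 1 = 1 := by
  apply Subtype.ext
  ext i j
  simp [sc]

/-- **Abelian groups are hyperlinear.** -/
theorem hyp_comm (A : Type) [CommGroup A] : IsHyperlinear A := by
  apply hyperlinear_of_data
  intro S _ g _ hg ε hε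
  obtain ⟨χ, hχ⟩ := exists_circle hg
  have hpos : 0 < N2 ((sc (χ g)).1 - 1) (fun _ : Unit => (1 : ℝ)) := by
    have h1 : N2 ((sc (χ g)).1 - 1) (fun _ : Unit => (1 : ℝ)) = ‖(χ g : ℂ) - 1‖ ^ 2 := by
      simp [N2, wN, sc]
    rw [h1]
    have h2 : (χ g : ℂ) - 1 ≠ 0 := fun h => hχ (Circle.ext (by rw [Circle.coe_one]; exact sub_eq_zero.1 h))
    positivity
  refine ⟨Unit, inferInstance, inferInstance, fun a => sc (χ a), fun _ => 1, ?_, hpos, ?_, ?_⟩
  · show sc (χ 1) = 1
    rw [map_one, sc_one]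
  · intro a _
    have h1 : E2 (sc (χ a)).1 (fun _ : Unit => (1 : ℝ)) = 0 := by simp [E2]
    rw [h1]
    exact (mul_pos hε hpos).le
  · intro a _ b _ _
    have h1 : (sc (χ (a * b))).1 - (sc (χ a)).1 * (sc (χ b)).1 = 0 := by
      rw [map_mul, sc_mul, sub_self]
    rw [h1]
    have h2 : N2 (0 : Matrix Unit Unit ℂ) (fun _ : Unit => (1 : ℝ)) = 0 := by simp [N2, wN]
    rw [h2]
    exact (mul_pos hε hpos).le

/-- **Residually finite groups are hyperlinear.** -/
theorem hyp_rf {Q : Type} [Group Q]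
    (h : ∀ g : Q, g ≠ 1 → ∃ (H : Type) (_ : Group H) (_ : Finite H) (f : Q →* H), f g ≠ 1) :
    IsHyperlinear Q := by
  classical
  apply Pool.Agent.N303.KQ.hyp_of_lef
  intro A _ g _ hg
  obtain ⟨H, _, _, f, hf⟩ := h g hg
  have := Fintype.ofFinite H
  refine ⟨H, inferInstance, inferInstance, fun a => MulAction.toPerm (f a), ?_, ?_, ?_⟩
  · ext x
    simp
  · intro a _ b _ _
    ext x
    simp [mul_assoc]
  · intro h1
    apply hf
    have h2 := Equiv.congr_fun h1 (1 : H)
    simpa using h2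

end

end Pool.Agent.Helper12.EP
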