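import Pool.Agent.Helper12.EP.Gp

/-!
# EP: the small group is a proper subgroup
-/

set_option autoImplicit false

namespace Pool.Agent.Helper12.EP

open FreeGroup (of)

noncomputable section

/-- injections extend to permutations of a larger set -/
theorem exists_ext {X : Type} [Countable X] (f : X → X) (hf : Function.Injective f) :
    ∃ π : Equiv.Perm (X ⊕ ℕ), ∀ x, π (Sum.inl x) = Sum.inl (f x) := by
  classical
  set S : Set (X ⊕ ℕ) := Set.range fun x => (Sum.inl (f x) : X ⊕ ℕ) with hS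
  have hinf : Infinite ↥Sᶜ := by
    refine Infinite.of_injective (fun n : ℕ => (⟨Sum.inr n, ?_⟩ : ↥Sᶜ)) ?_
    · rintro ⟨x, hx⟩
      simp at hx
    · intro m n h
      simpa using h
  obtain ⟨e1⟩ := nonempty_equiv_of_countable (α := ℕ) (β := ↥Sᶜ)
  have hinj : Function.Injective fun x => (Sum.inl (f x) : X ⊕ ℕ) :=
    fun x y h => hf (Sum.inl_injective h)
  refine ⟨(Equiv.sumCongr (Equiv.ofInjective _ hinj) e1).trans (Equiv.Set.sumCompl S), fun x => ?_⟩
  simp

/-- the space -/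
abbrev XX : Type := Fin 3 × ℕ

/-- the injections -/
def ff (p : Fin 3) (y : XX) : XX :=
  if y.1 = p then y else if y.1 = p + 1 then (p + 1, 2 * y.2) else (p + 1, 2 * y.2 + 1)

theorem c3 (p i : Fin 3) : i = p ∨ i = p + 1 ∨ i = p + 2 := by
  revert p i
  decide

theorem ne2 (p : Fin 3) : p + 2 ≠ p := by
  revert p
  decide

theorem ne12 (p : Fin 3) : p + 2 ≠ p + 1 := by
  revert p
  decide

theorem eq3 (p : Fin 3) : p + 2 + 1 = p := by
  revert p
  decide

theorem ff_inj (p : Fin 3) : Function.Injective (ff p) := by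
  rintro ⟨i, m⟩ ⟨j, n⟩ h
  have h3 := c3 p
  have hp1 : p + 1 ≠ p := ne1 p
  have hp2 : p + 2 ≠ p := ne2 p
  have hp12 : p + 2 ≠ p + 1 := ne12 p
  unfold ff at h
  rcases h3 i with rfl | rfl | rfl <;> rcases h3 j with rfl | rfl | rfl <;>
    simp_all [Prod.ext_iff] <;> omega

theorem ff_rel (p : Fin 3) (y : XX) : ff p (ff (p + 2) (ff p y)) = ff (p + 2) (ff p y) := by
  have h3 := c3 p
  have h4 : (ff (p + 2) (ff p y)).1 = p := by
    have e : p + 2 + 1 = p := eq3 p
    have hp1 : p + 1 ≠ p := ne1 p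
    have hp2 : p + 2 ≠ p := ne2 p
    have hp3 : p ≠ p + 2 := hp2.symm
    have hp12 : p + 1 ≠ p + 2 := (ne12 p).symm
    obtain ⟨i, m⟩ := y
    unfold ff
    rcases h3 i with rfl | rfl | rfl <;> simp_all
  rw [ff, if_pos h4]

/-- the good actions of the free group: the letters `a p` extend the injections, the letters `x i`
act trivially on the space -/
def Good (α : FreeGroup Lt →* Equiv.Perm (XX ⊕ ℕ)) : Prop :=
  (∀ p x, α (ga p) (Sum.inl x) = Sum.inl (ff p x)) ∧ ∀ i x, α (gx i) (Sum.inl x) = Sum.inl x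

/-- the elements which act trivially on the space in all good actions -/
def Tr (w : FreeGroup Lt) : Prop := ∀ α, Good α → ∀ x, α w (Sum.inl x) = Sum.inl x

theorem Tr.inv {w : FreeGroup Lt} (h : Tr w) : Tr w⁻¹ := by
  intro α hα x
  rw [map_inv, Equiv.Perm.inv_eq_iff_eq]
  exact (h α hα x).symm

theorem tr_x (i : Fin 3) : Tr (gx i) := fun _ hα x => hα.2 i x

theorem tr_c (p : Fin 3) {w : FreeGroup Lt} (hw : Tr w) : Tr (cw p w) := by
  intro α hα x
  rw [cw, map_mul, map_mul, map_inv, Equiv.Perm.mul_apply, Equiv.Perm.mul_apply, hα.1 p x,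
    hw α hα, Equiv.Perm.inv_eq_iff_eq, hα.1 p x]

theorem tr_h (p : Fin 3) : Tr (hh p) := by
  intro α hα x
  rw [hh, map_mul, map_mul, map_inv, Equiv.Perm.mul_apply, Equiv.Perm.mul_apply]
  have h1 : α (ga (p + 2) * ga p) (Sum.inl x) = Sum.inl (ff (p + 2) (ff p x)) := by
    rw [map_mul, Equiv.Perm.mul_apply, hα.1, hα.1]
  rw [h1, hα.1, ff_rel, Equiv.Perm.inv_eq_iff_eq, h1]

theorem good_comp {i : Fin 3} {w : FreeGroup Lt} (hw : Tr w)
    {α : FreeGroup Lt →* Equiv.Perm (XX ⊕ ℕ)} (hα : Good α) :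
    Good (α.comp (tv (Lt.x i) w).toMonoidHom) := by
  refine ⟨fun p x => ?_, fun j x => ?_⟩
  · change α (tv (Lt.x i) w (ga p)) _ = _
    rw [ga, tv_of (by simp)]
    exact hα.1 p x
  · change α (tv (Lt.x i) w (gx j)) _ = _
    by_cases h : w ∈ NI (Lt.x i)
    · by_cases hij : j = i
      · subst hij
        rw [gx, tv_same h, map_mul, Equiv.Perm.mul_apply, hw α hα]
        exact hα.2 j x
      · rw [gx, tv_of (by simpa using hij)]
        exact hα.2 j x
    · rw [tv_neg h]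
      exact hα.2 j x

/-- the certificate -/
def Cert : Subgroup AF where
  carrier := {ψ | ∀ α : FreeGroup Lt →* Equiv.Perm (XX ⊕ ℕ),
    (Good α ↔ Good (α.comp ψ.toMonoidHom)) ∧
      (Good α → ∀ x, α (ψ (of Lt.z)) (Sum.inl x) = α (of Lt.z) (Sum.inl x))}
  one_mem' := fun α => ⟨Iff.rfl, fun _ _ => rfl⟩
  mul_mem' := by
    intro ψ χ hψ hχ α
    have e : α.comp (ψ * χ).toMonoidHom = (α.comp ψ.toMonoidHom).comp χ.toMonoidHom := rfl
    refine ⟨?_, fun hα x => ?_⟩
    · rw [e, (hψ α).1, (hχ _).1]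
    · have h1 := (hχ (α.comp ψ.toMonoidHom)).2 ((hψ α).1.1 hα) x
      exact h1.trans ((hψ α).2 hα x)
  inv_mem' := by
    intro ψ hψ α
    have e : (α.comp (ψ⁻¹).toMonoidHom).comp ψ.toMonoidHom = α := by
      refine FreeGroup.ext_hom _ _ fun s => ?_
      change α (ψ⁻¹ (ψ (of s))) = _
      rw [MulAut.inv_apply_self]
    have h1 := hψ (α.comp (ψ⁻¹).toMonoidHom)
    rw [e] at h1
    refine ⟨h1.1.symm, fun hα x => ?_⟩
    have h2 := h1.2 (h1.1.2 hα) x
    have h3 : (α.comp (ψ⁻¹).toMonoidHom) (ψ (of Lt.z)) = α (of Lt.z) := by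
      change α (ψ⁻¹ (ψ (of Lt.z))) = _
      rw [MulAut.inv_apply_self]
    rw [h3] at h2
    exact h2.symm

theorem cert_x (i : Fin 3) {w : FreeGroup Lt} (hw : Tr w) : tv (Lt.x i) w ∈ Cert := by
  intro α
  refine ⟨⟨fun h => good_comp hw h, fun h => ?_⟩, fun _ x => ?_⟩
  · by_cases hn : w ∈ NI (Lt.x i)
    · have h1 := good_comp (i := i) hw.inv h
      have e : (α.comp (tv (Lt.x i) w).toMonoidHom).comp (tv (Lt.x i) w⁻¹).toMonoidHom = α := by
        refine FreeGroup.ext_hom _ _ fun s => ?_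
        change α (tv (Lt.x i) w (tv (Lt.x i) w⁻¹ (of s))) = _
        rw [tv_inv hn, MulAut.apply_inv_self]
      rwa [e] at h1
    · rw [tv_neg hn] at h
      exact h
  · rw [tv_of (by simp)]

theorem cert_z {w : FreeGroup Lt} (hz : w ∈ NI Lt.z) (hw : Tr w) : tv Lt.z w ∈ Cert := by
  intro α
  have e1 : ∀ p, (α.comp (tv Lt.z w).toMonoidHom) (ga p) = α (ga p) := by
    intro p
    change α (tv Lt.z w (ga p)) = _
    rw [ga, tv_of (by simp)]
  have e2 : ∀ i, (α.comp (tv Lt.z w).toMonoidHom) (gx i) = α (gx i) := by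
    intro p
    change α (tv Lt.z w (gx p)) = _
    rw [gx, tv_of (by simp)]
  refine ⟨?_, fun hα x => ?_⟩
  · unfold Good
    simp only [e1, e2]
  · rw [tv_same hz, map_mul, Equiv.Perm.mul_apply, hw α hα]

theorem HH_le_cert : HH ≤ Cert := by
  refine (Subgroup.closure_le _).2 ?_
  refine gH_cases ?_ ?_ ?_ ?_
  · exact fun i => cert_z (gx_z i) (tr_x i)
  · exact fun i j => cert_x i (tr_x j)
  · exact fun i j p => cert_x i (tr_c p (tr_x j))
  · exact fun i p => cert_x i (tr_h p)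

theorem exists_good : ∃ α, Good α := by
  choose π hπ using fun p => exists_ext (ff p) (ff_inj p)
  refine ⟨FreeGroup.lift fun s => match s with
    | Lt.a p => π p
    | Lt.x _ => 1
    | Lt.z => 1, fun p x => ?_, fun i x => ?_⟩
  · rw [ga, FreeGroup.lift_apply_of]
    exact hπ p x
  · rw [gx, FreeGroup.lift_apply_of]
    rfl

theorem A_not_mem : tv Lt.z (ga 0) ∉ HH := by
  intro h
  obtain ⟨α, hα⟩ := exists_good
  have h1 := (HH_le_cert h α).2 hα (2, 0)
  rw [tv_same (ga_z 0), map_mul, Equiv.Perm.mul_apply, hα.1] at h1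
  have h2 := Sum.inl_injective ((α (of Lt.z)).injective h1)
  simp [ff] at h2

end

end Pool.Agent.Helper12.EP
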