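import Pool.Agent.Helper8.CK.Rf

/-!
# EP: automorphism groups of free groups of finite rank are residually finite
-/

set_option autoImplicit false

namespace Pool.Agent.Helper12.EP

open Pool.Agent.Helper3.CK (RF)

/-- Free groups are residually finite. -/
theorem free_rf {ι : Type} (w : FreeGroup ι) (hw : w ≠ 1) :
    ∃ (Y : Type) (_ : Finite Y) (α : FreeGroup ι →* Equiv.Perm Y), α w ≠ 1 := by
  classical
  set L := w.toWord with hL
  set Y : Finset (FreeGroup ι) := (L.tails.map FreeGroup.mk).toFinset with hY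
  have memY : ∀ L' : List (ι × Bool), L' <:+ L → FreeGroup.mk L' ∈ Y := by
    intro L' h
    rw [hY, List.mem_toFinset, List.mem_map]
    exact ⟨L', (List.mem_tails _ _).2 h, rfl⟩
  -- the partial permutations
  let e : ι → Equiv.Perm Y := fun s =>
    (Equiv.mk (α := {y : Y // FreeGroup.of s * (y : FreeGroup ι) ∈ Y})
      (β := {y : Y // (FreeGroup.of s)⁻¹ * (y : FreeGroup ι) ∈ Y})
      (fun y => ⟨⟨FreeGroup.of s * y.1.1, y.2⟩, by
        rw [inv_mul_cancel_left]; exact y.1.2⟩)
      (fun y => ⟨⟨(FreeGroup.of s)⁻¹ * y.1.1, y.2⟩, by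
        rw [mul_inv_cancel_left]; exact y.1.2⟩)
      (fun y => Subtype.ext (Subtype.ext (inv_mul_cancel_left _ _)))
      (fun y => Subtype.ext (Subtype.ext (mul_inv_cancel_left _ _)))).extendSubtype
  have he : ∀ (s : ι) (y : Y) (h : FreeGroup.of s * (y : FreeGroup ι) ∈ Y),
      e s y = ⟨FreeGroup.of s * y, h⟩ := by
    intro s y h
    exact Equiv.extendSubtype_apply_of_mem _ y h
  have hone : (1 : FreeGroup ι) ∈ Y := memY [] List.nil_suffix
  have key : ∀ L' : List (ι × Bool), (h : L' <:+ L) →
      FreeGroup.lift e (FreeGroup.mk L') ⟨1, hone⟩ = ⟨FreeGroup.mk L', memY L' h⟩ := by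
    intro L'
    induction L' with
    | nil =>
      intro h
      have h1 : FreeGroup.lift e (FreeGroup.mk []) = 1 := map_one _
      exact DFunLike.congr_fun h1 _
    | cons q L'' ih =>
      intro h
      obtain ⟨s, b⟩ := q
      have h' : L'' <:+ L := (List.suffix_cons _ _).trans h
      have hm := memY _ h
      have hcons : (FreeGroup.mk ((s, b) :: L'') : FreeGroup ι) =
          FreeGroup.mk [(s, b)] * FreeGroup.mk L'' := by
        rw [FreeGroup.mul_mk]
        rfl
      have hval : FreeGroup.lift e (FreeGroup.mk ((s, b) :: L'')) =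
          FreeGroup.lift e (FreeGroup.mk [(s, b)]) * FreeGroup.lift e (FreeGroup.mk L'') := by
        rw [hcons, map_mul]
      rw [hval, Equiv.Perm.mul_apply, ih h']
      cases b with
      | true =>
        have e1 : FreeGroup.lift e (FreeGroup.mk [(s, true)]) = e s := by
          change FreeGroup.lift e (FreeGroup.of s) = e s
          exact FreeGroup.lift_apply_of
        have hm' : FreeGroup.of s * FreeGroup.mk L'' ∈ Y := by
          rw [hcons] at hm
          exact hm
        rw [e1, he s ⟨FreeGroup.mk L'', memY _ h'⟩ hm']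
        exact Subtype.ext hcons.symm
      | false =>
        have e0 : (FreeGroup.mk [(s, false)] : FreeGroup ι) = (FreeGroup.of s)⁻¹ := by
          rw [FreeGroup.of, FreeGroup.inv_mk]
          rfl
        have e1 : FreeGroup.lift e (FreeGroup.mk [(s, false)]) = (e s)⁻¹ := by
          rw [e0, map_inv, FreeGroup.lift_apply_of]
        rw [e1, Equiv.Perm.inv_eq_iff_eq]
        have hm' : FreeGroup.of s * (FreeGroup.mk ((s, false) :: L'')) ∈ Y := by
          rw [hcons, e0, mul_inv_cancel_left]
          exact memY _ h'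
        rw [he s ⟨FreeGroup.mk ((s, false) :: L''), hm⟩ hm']
        apply Subtype.ext
        change FreeGroup.mk L'' = FreeGroup.of s * FreeGroup.mk ((s, false) :: L'')
        rw [hcons, e0, mul_inv_cancel_left]
  refine ⟨Y, inferInstance, FreeGroup.lift e, fun h0 => hw ?_⟩
  have h1 := congrArg (fun y : Y => (y : FreeGroup ι)) (key L (List.suffix_refl _))
  have h2 : FreeGroup.mk L = w := FreeGroup.mk_toWord
  have h3 : FreeGroup.lift e (FreeGroup.mk L) = 1 := by rw [h2, h0]
  simp only [h3, Equiv.Perm.one_apply] at h1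
  rw [← h2]
  exact h1.symm

/-- The automorphism group of a free group of finite rank is residually finite. -/
theorem aut_rf (ι : Type) [Finite ι] : RF (MulAut (FreeGroup ι)) := by
  intro φ hφ
  obtain ⟨x, hx⟩ : ∃ x, φ x ≠ x := by
    by_contra h
    push Not at h
    exact hφ (MulEquiv.ext h)
  have hx1 : φ x * x⁻¹ ≠ 1 := fun h => hx (mul_inv_eq_one.1 h)
  obtain ⟨Y, hY, α, hα⟩ := free_rf _ hx1
  have : Finite (FreeGroup ι →* Equiv.Perm Y) :=
    Finite.of_injective (fun β : FreeGroup ι →* Equiv.Perm Y => fun i => β (FreeGroup.of i))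
      fun β γ h => FreeGroup.ext_hom _ _ fun i => congrFun h i
  let T : MulAut (FreeGroup ι) →* Equiv.Perm (FreeGroup ι →* Equiv.Perm Y) :=
    { toFun := fun ψ =>
        { toFun := fun β => β.comp (ψ⁻¹ : MulAut (FreeGroup ι)).toMonoidHom
          invFun := fun β => β.comp ψ.toMonoidHom
          left_inv := fun β => by
            ext1 w
            change β (ψ⁻¹ (ψ (FreeGroup.of w))) = β (FreeGroup.of w)
            rw [MulAut.inv_apply_self]
          right_inv := fun β => by
            ext1 w
            change β (ψ (ψ⁻¹ (FreeGroup.of w))) = β (FreeGroup.of w)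
            rw [MulAut.apply_inv_self] }
      map_one' := rfl
      map_mul' := fun ψ χ => by
        apply Equiv.ext
        intro β
        ext1 w
        change β ((ψ * χ)⁻¹ (FreeGroup.of w)) = β (χ⁻¹ (ψ⁻¹ (FreeGroup.of w)))
        rw [mul_inv_rev]
        rfl }
  refine ⟨Equiv.Perm (FreeGroup ι →* Equiv.Perm Y), inferInstance, inferInstance, T, fun h => hα ?_⟩
  have h1 : T φ (α.comp φ.toMonoidHom) = α.comp φ.toMonoidHom := by rw [h]; rfl
  have h2 : T φ (α.comp φ.toMonoidHom) x = α x := by
    change α (φ (φ⁻¹ x)) = α x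
    rw [MulAut.apply_inv_self]
  rw [h1] at h2
  change α (φ x) = α x at h2
  rw [map_mul, map_inv, h2, mul_inv_cancel]

end Pool.Agent.Helper12.EP
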