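import Pool.Agent.Helper12.EP.Tv

/-!
# EP: a pair of groups of automorphisms of the free group of rank seven
-/

set_option autoImplicit false

namespace Pool.Agent.Helper12.EP

open FreeGroup (of)
open scoped commutatorElement

/-- the letters -/
inductive Lt : Type
  | a (p : Fin 3)
  | x (i : Fin 3)
  | z
  deriving DecidableEq, Fintype

noncomputable section

/-- the automorphisms of the free group of rank seven -/
abbrev AF : Type := MulAut (FreeGroup Lt)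

/-- the letter `a p` -/
def ga (p : Fin 3) : FreeGroup Lt := of (Lt.a p)

/-- the letter `x i` -/
def gx (i : Fin 3) : FreeGroup Lt := of (Lt.x i)

/-- conjugate of `w` by `a p` -/
def cw (p : Fin 3) (w : FreeGroup Lt) : FreeGroup Lt := (ga p)⁻¹ * w * ga p

/-- the word `(a_{p+2} a_p)⁻¹ a_p (a_{p+2} a_p)` -/
def hh (p : Fin 3) : FreeGroup Lt := (ga (p + 2) * ga p)⁻¹ * ga p * (ga (p + 2) * ga p)

theorem ga_z (p : Fin 3) : ga p ∈ NI Lt.z := of_mem_NI (by simp)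
theorem gx_z (i : Fin 3) : gx i ∈ NI Lt.z := of_mem_NI (by simp)
theorem ga_x (p i : Fin 3) : ga p ∈ NI (Lt.x i) := of_mem_NI (by simp)
theorem gx_x {i j : Fin 3} (h : j ≠ i) : gx j ∈ NI (Lt.x i) := of_mem_NI (by simpa using h)

theorem cw_mem {t : Lt} {p : Fin 3} {w : FreeGroup Lt} (hp : ga p ∈ NI t) (hw : w ∈ NI t) :
    cw p w ∈ NI t := mul_mem (mul_mem (inv_mem hp) hw) hp

theorem hh_mem {t : Lt} (p : Fin 3) (h : ∀ p, ga p ∈ NI t) : hh p ∈ NI t :=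
  mul_mem (mul_mem (inv_mem (mul_mem (h _) (h _))) (h _)) (mul_mem (h _) (h _))

theorem hh_z (p : Fin 3) : hh p ∈ NI Lt.z := hh_mem p ga_z
theorem hh_x (p i : Fin 3) : hh p ∈ NI (Lt.x i) := hh_mem p fun q => ga_x q i

/-- the generators of `HH` -/
def gH : Set AF :=
  (Set.range fun i => tv Lt.z (gx i)) ∪
  (Set.range fun q : Fin 3 × Fin 3 => tv (Lt.x q.1) (gx q.2)) ∪
  (Set.range fun q : Fin 3 × Fin 3 × Fin 3 => tv (Lt.x q.1) (cw q.2.2 (gx q.2.1))) ∪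
  (Set.range fun q : Fin 3 × Fin 3 => tv (Lt.x q.1) (hh q.2))

/-- the letters `a p` -/
def gA : Set AF := Set.range fun p => tv Lt.z (ga p)

theorem gH_cases {P : AF → Prop} (h1 : ∀ i, P (tv Lt.z (gx i)))
    (h2 : ∀ i j, P (tv (Lt.x i) (gx j))) (h3 : ∀ i j p, P (tv (Lt.x i) (cw p (gx j))))
    (h4 : ∀ i p, P (tv (Lt.x i) (hh p))) : ∀ y ∈ gH, P y := by
  rintro y (((⟨i, rfl⟩ | ⟨⟨i, j⟩, rfl⟩) | ⟨⟨i, j, p⟩, rfl⟩) | ⟨⟨i, p⟩, rfl⟩)
  · exact h1 i
  · exact h2 i j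
  · exact h3 i j p
  · exact h4 i p

theorem gH_finite : gH.Finite :=
  ((((Set.finite_range _).union (Set.finite_range _)).union (Set.finite_range _)).union
    (Set.finite_range _))

theorem gA_finite : gA.Finite := Set.finite_range _

/-- the small group -/
def HH : Subgroup AF := Subgroup.closure gH

/-- the big group -/
def GG : Subgroup AF := Subgroup.closure (gH ∪ gA)

theorem HH_le : HH ≤ GG := Subgroup.closure_mono Set.subset_union_left

theorem z_mem (i : Fin 3) : tv Lt.z (gx i) ∈ HH :=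
  Subgroup.subset_closure (Or.inl (Or.inl (Or.inl ⟨i, rfl⟩)))

theorem xx_mem (i j : Fin 3) : tv (Lt.x i) (gx j) ∈ HH :=
  Subgroup.subset_closure (Or.inl (Or.inl (Or.inr ⟨⟨i, j⟩, rfl⟩)))

theorem xc_mem (i j p : Fin 3) : tv (Lt.x i) (cw p (gx j)) ∈ HH :=
  Subgroup.subset_closure (Or.inl (Or.inr ⟨⟨i, j, p⟩, rfl⟩))

theorem xh_mem (i p : Fin 3) : tv (Lt.x i) (hh p) ∈ HH :=
  Subgroup.subset_closure (Or.inr ⟨⟨i, p⟩, rfl⟩)

theorem A_mem (p : Fin 3) : tv Lt.z (ga p) ∈ GG := Subgroup.subset_closure (Or.inr ⟨p, rfl⟩)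

theorem ne1 (i : Fin 3) : i + 1 ≠ i := by revert i; decide

theorem z_ne_x (i : Fin 3) : Lt.z ≠ Lt.x i := by simp

/-- conjugates of the `x i` -/
theorem zc_mem (i p : Fin 3) : tv Lt.z (cw p (gx i)) ∈ HH := by
  have hw : cw p (gx i) ∈ NI (Lt.x (i + 1)) := cw_mem (ga_x _ _) (gx_x (ne1 i).symm)
  rw [key' (z_ne_x (i + 1)) (cw_mem (ga_z p) (gx_z i)) hw]
  exact mul_mem (mul_mem (mul_mem (inv_mem (z_mem _)) (xc_mem _ _ _)) (z_mem _))
    (inv_mem (xc_mem _ _ _))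

theorem zh_mem (p : Fin 3) : tv Lt.z (hh p) ∈ HH := by
  rw [key' (z_ne_x 0) (hh_z p) (hh_x p 0)]
  exact mul_mem (mul_mem (mul_mem (inv_mem (z_mem _)) (xh_mem _ _)) (z_mem _))
    (inv_mem (xh_mem _ _))

theorem conj_z (p : Fin 3) {w : FreeGroup Lt} (hw : w ∈ NI Lt.z) :
    (tv Lt.z (ga p))⁻¹ * tv Lt.z w * tv Lt.z (ga p) = tv Lt.z (cw p w) := by
  rw [← tv_inv (ga_z p), ← tv_mul (inv_mem (ga_z p)) hw,
    ← tv_mul (mul_mem (inv_mem (ga_z p)) hw) (ga_z p)]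
  rfl

theorem conj_x (p i : Fin 3) {w : FreeGroup Lt} (hw : w ∈ NI Lt.z) :
    (tv Lt.z (ga p))⁻¹ * tv (Lt.x i) w * tv Lt.z (ga p) = tv (Lt.x i) w := by
  by_cases h : w ∈ NI (Lt.x i)
  · rw [mul_assoc, ← tv_comm (z_ne_x i) (ga_z p) (ga_x p i) h hw, inv_mul_cancel_left]
  · rw [tv_neg h]
    group

/-- `a p` conjugates `HH` into itself -/
theorem comp (p : Fin 3) : ∀ y ∈ HH, (tv Lt.z (ga p))⁻¹ * y * tv Lt.z (ga p) ∈ HH := by
  have h : HH ≤ HH.comap (MulAut.conj (tv Lt.z (ga p))⁻¹).toMonoidHom := by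
    refine (Subgroup.closure_le _).2 ?_
    intro y hy
    change MulAut.conj (tv Lt.z (ga p))⁻¹ y ∈ HH
    rw [MulAut.conj_apply, inv_inv]
    revert y
    refine gH_cases ?_ ?_ ?_ ?_
    · intro i
      rw [conj_z p (gx_z i)]
      exact zc_mem i p
    · intro i j
      rw [conj_x p i (gx_z j)]
      exact xx_mem i j
    · intro i j q
      rw [conj_x p i (cw_mem (ga_z q) (gx_z j))]
      exact xc_mem i j q
    · intro i q
      rw [conj_x p i (hh_z q)]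
      exact xh_mem i q
  intro y hy
  have h1 := h hy
  change MulAut.conj (tv Lt.z (ga p))⁻¹ y ∈ HH at h1
  rwa [MulAut.conj_apply, inv_inv] at h1

theorem zh_eq (p : Fin 3) : tv Lt.z (hh p) =
    (tv Lt.z (ga (p + 2)) * tv Lt.z (ga p))⁻¹ * tv Lt.z (ga p) *
      (tv Lt.z (ga (p + 2)) * tv Lt.z (ga p)) := by
  have h1 := mul_mem (ga_z (p + 2)) (ga_z p)
  rw [hh, tv_mul (mul_mem (inv_mem h1) (ga_z p)) h1, tv_mul (inv_mem h1) (ga_z p), tv_inv h1,
    tv_mul (ga_z (p + 2)) (ga_z p)]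

/-- `GG` is the normal closure of `HH` -/
theorem GG_le_of_normal (N : Subgroup AF) (hN : HH ≤ N) (hn : ∀ g ∈ GG, ∀ y ∈ N, g * y * g⁻¹ ∈ N) :
    GG ≤ N := by
  refine (Subgroup.closure_le _).2 ?_
  rintro y (hy | ⟨p, rfl⟩)
  · exact hN (Subgroup.subset_closure hy)
  · have h1 := hn _ (mul_mem (A_mem (p + 2)) (A_mem p)) _ (hN (zh_mem p))
    rw [zh_eq p] at h1
    have e : tv Lt.z (ga (p + 2)) * tv Lt.z (ga p) *
        ((tv Lt.z (ga (p + 2)) * tv Lt.z (ga p))⁻¹ * tv Lt.z (ga p) *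
          (tv Lt.z (ga (p + 2)) * tv Lt.z (ga p))) *
        (tv Lt.z (ga (p + 2)) * tv Lt.z (ga p))⁻¹ = tv Lt.z (ga p) := by group
    rwa [e] at h1

/-- `GG` is perfect -/
theorem GG_perfect : GG ≤ ⁅GG, GG⁆ := by
  have hc : ∀ {t k : Lt}, t ≠ k → ∀ {w : FreeGroup Lt}, w ∈ NI t → w ∈ NI k → tv t (of k) ∈ GG →
      tv k w ∈ GG → tv t w ∈ ⁅GG, GG⁆ := by
    intro t k htk w hwt hwk h1 h2
    rw [key' htk hwt hwk]
    have h3 := Subgroup.commutator_mem_commutator (inv_mem h1) h2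
    rw [commutatorElement_def, inv_inv] at h3
    exact h3
  have hx : ∀ {i : Fin 3} {w : FreeGroup Lt}, w ∈ NI (Lt.x i) → (∃ j, j ≠ i ∧ w ∈ NI (Lt.x j) ∧
      tv (Lt.x j) w ∈ HH) → tv (Lt.x i) w ∈ ⁅GG, GG⁆ := by
    rintro i w hw ⟨j, hj, h1, h2⟩
    exact hc (by simpa using hj.symm) hw h1 (HH_le (xx_mem i j)) (HH_le h2)
  have third : ∀ i j : Fin 3, ∃ k, k ≠ i ∧ k ≠ j := by decide
  refine GG_le_of_normal _ ((Subgroup.closure_le _).2 ?_) ?_
  · refine gH_cases ?_ ?_ ?_ ?_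
    · intro i
      exact hc (z_ne_x (i + 1)) (gx_z i) (gx_x (ne1 i).symm) (HH_le (z_mem _))
        (HH_le (xx_mem _ _))
    · intro i j
      by_cases h : gx j ∈ NI (Lt.x i)
      · obtain ⟨k, hk, hkj⟩ := third i j
        exact hx h ⟨k, hk, gx_x hkj.symm, xx_mem _ _⟩
      · rw [SetLike.mem_coe, tv_neg h]
        exact one_mem _
    · intro i j p
      by_cases h : cw p (gx j) ∈ NI (Lt.x i)
      · obtain ⟨k, hk, hkj⟩ := third i j
        exact hx h ⟨k, hk, cw_mem (ga_x _ _) (gx_x hkj.symm), xc_mem _ _ _⟩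
      · rw [SetLike.mem_coe, tv_neg h]
        exact one_mem _
    · intro i p
      exact hx (hh_x p i) ⟨i + 1, ne1 i, hh_x p _, xh_mem _ _⟩
  · intro g hg y hy
    have hle : ⁅GG, GG⁆ ≤ GG := Subgroup.commutator_le.2 fun a ha b hb => by
      rw [commutatorElement_def]
      exact mul_mem (mul_mem (mul_mem ha hb) (inv_mem ha)) (inv_mem hb)
    have hy' : y ∈ GG := hle hy
    have h1 : g * y * g⁻¹ = ⁅g, y⁆ * y := by
      rw [commutatorElement_def]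
      group
    rw [h1]
    exact mul_mem (Subgroup.commutator_mem_commutator hg hy') hy

end

end Pool.Agent.Helper12.EP
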