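import Pool.Agent.Helper12.EP.Ring

/-!
# EP: the pair of residually finite Kazhdan groups
-/

set_option autoImplicit false

namespace Pool.Agent.Helper12.EP

open Pool.Agent.N44.NS Pool.Agent.N169.NS
open Pool.Agent.Helper3.CK (RF)
open Pool.Agent.W661.RC (HasT)

/-- A proper subgroup whose normal closure is the group has infinite index if the group is generated
by elements which conjugate it into itself. -/
theorem index_zero {Q : Type} [Group Q] (K : Subgroup Q)
    (hgen : Subgroup.closure {s : Q | ∀ x ∈ K, s⁻¹ * x * s ∈ K} = ⊤)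
    (hncl : Subgroup.normalClosure (K : Set Q) = ⊤) (hne : K ≠ ⊤) : K.index = 0 := by
  by_contra h0
  have hs : ∀ s ∈ {s : Q | ∀ x ∈ K, s⁻¹ * x * s ∈ K}, s ∈ Subgroup.normalizer (K : Set Q) := by
    intro s hs
    set K' := K.map (MulAut.conj s⁻¹).toMonoidHom with hK'
    have hle : K' ≤ K := by
      rintro _ ⟨x, hx, rfl⟩
      change MulAut.conj s⁻¹ x ∈ K
      rw [MulAut.conj_apply, inv_inv]
      exact hs x hx
    have hidx : K'.index = K.index := Subgroup.index_map_equiv K (MulAut.conj s⁻¹)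
    have hrel : K'.relIndex K * K.index = K'.index := Subgroup.relIndex_mul_index hle
    have h1 : K'.relIndex K = 1 := by
      rw [hidx] at hrel
      exact (Nat.mul_eq_right h0).1 hrel
    have hge : K ≤ K' := Subgroup.relIndex_eq_one.1 h1
    rw [Subgroup.mem_normalizer_iff]
    have h2 : ∀ y ∈ K, s * y * s⁻¹ ∈ K := by
      intro y hy
      obtain ⟨x, hx, hxy⟩ := hge hy
      change MulAut.conj s⁻¹ x = y at hxy
      rw [MulAut.conj_apply, inv_inv] at hxy
      rw [← hxy]
      have e : s * (s⁻¹ * x * s) * s⁻¹ = x := by group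
      rwa [e]
    intro y
    refine ⟨h2 y, fun h => ?_⟩
    have h3 := hs _ h
    have e : s⁻¹ * (s * y * s⁻¹) * s = y := by group
    rwa [e] at h3
  have hn : Subgroup.normalizer (K : Set Q) = ⊤ := by
    rw [eq_top_iff, ← hgen]
    exact (Subgroup.closure_le _).2 hs
  have hnor : K.Normal := Subgroup.normalizer_eq_top_iff.1 hn
  rw [Subgroup.normalClosure_eq_self] at hncl
  exact hne hncl

/-- **The pair of residually finite Kazhdan groups.** -/
theorem exists_pair : ∃ (Q : Type) (_ : Group Q) (K : Subgroup Q), RF Q ∧ HasT Q ∧ HasT K ∧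
    Subgroup.closure {s : Q | ∀ x ∈ K, s⁻¹ * x * s ∈ K} = ⊤ ∧
    Subgroup.normalClosure (K : Set Q) = ⊤ ∧ K.index = 0 := by
  classical
  obtain ⟨hrf, hfg, hfgH, hperf, hgen, hncl, hne⟩ := star_GG
  set H := HH.subgroupOf GG with hH
  obtain ⟨S, hS⟩ := Monoid.fg_def.1 (Group.fg_iff_monoid_fg.1 hfg)
  obtain ⟨T, hT⟩ := Monoid.fg_def.1 (Group.fg_iff_monoid_fg.1 hfgH)
  obtain ⟨p, hp, hpp⟩ := Nat.exists_infinite_primes ((3 + (S.card + T.card)) ^ 2)
  have : Fact p.Prime := ⟨hpp⟩
  have hcard : ∀ n ≤ S.card + T.card, (3 + n) ^ 2 ≤ Fintype.card (ZMod p) := by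
    intro n hn
    rw [ZMod.card]
    refine le_trans ?_ hp
    exact Nat.pow_le_pow_left (by omega) 2
  have h1 : HasT (E3 (MonoidAlgebra (ZMod p) GG)) := by
    refine hasT_alg (ZMod p) (m := S.card) (fun i => ((S.equivFin.symm i : S) : GG)) ?_
      (hcard _ (by omega))
    have e : (Set.range fun i => ((S.equivFin.symm i : S) : GG)) = (S : Set GG) := by
      ext x
      constructor
      · rintro ⟨i, rfl⟩
        exact (S.equivFin.symm i).2
      · intro hx
        exact ⟨S.equivFin ⟨x, hx⟩, by simp⟩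
    rw [e]
    exact hS
  have h2 : HasT (E3 (MonoidAlgebra (ZMod p) H)) := by
    refine hasT_alg (ZMod p) (m := T.card) (fun i => ((T.equivFin.symm i : T) : H)) ?_
      (hcard _ (by omega))
    have e : (Set.range fun i => ((T.equivFin.symm i : T) : H)) = (T : Set H) := by
      ext x
      constructor
      · rintro ⟨i, rfl⟩
        exact (T.equivFin.symm i).2
      · intro hx
        exact ⟨T.equivFin ⟨x, hx⟩, by simp⟩
    rw [e]
    exact hT
  refine ⟨E3 (MonoidAlgebra (ZMod p) GG), inferInstance, KK (ZMod p) H, ?_, h1, ?_, ?_, ncl_KK, ?_⟩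
  · exact Pool.Agent.Helper8.CK.RF.sub
      ((Pool.Agent.Helper8.CK.rfr_monoidAlgebra (ZMod p) GG hrf).mat 3).units _
  · exact Pool.Agent.Helper8.CK.hasT_surj h2 _ (e3map (inc (ZMod p) H)).rangeRestrict_surjective
  · exact gen_KK hperf hgen hncl
  · exact index_zero _ (gen_KK hperf hgen hncl) ncl_KK (ne_KK hne)

end Pool.Agent.Helper12.EP
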