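import Pool.Agent.Helper12.EP.Pair
import Pool.Agent.Helper3.CK.Wr
import Pool.Agent.Helper87.WS.Kill
import Pool.Agent.Helper12.EP.Ab

/-!
# EP: homomorphisms to hyperlinear groups and the largest hyperlinear quotients

`K ≤ Q` is a Kazhdan pair if `Q` and `K` have property (T) and `Q` is generated by elements `s` with
`s⁻¹ K s ≤ K`.
-/

set_option autoImplicit false

namespace Pool.Agent.Helper12.EP

open Pool.Agent.W661.RC (HasT)
open Pool.Agent.H21R2 (IsHyperlinear IsSofic)
open Pool.Agent.Helper3.CK
open Pool.Agent.Helper87.WS (emb lamp_commute pwr_gen)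

noncomputable section

/-- Kazhdan pairs -/
structure KP {Q : Type} [Group Q] (K : Subgroup Q) : Prop where
  tQ : HasT Q
  tK : HasT K
  gen : Subgroup.closure {s : Q | ∀ x ∈ K, s⁻¹ * x * s ∈ K} = ⊤

/-- Any two homomorphisms from `Q` to a hyperlinear group which agree on `K` are equal. -/
def Ep {Q : Type} [Group Q] (K : Subgroup Q) : Prop :=
  ∀ (P : Type) [Group P], IsHyperlinear P → ∀ f g : Q →* P, (∀ x ∈ K, f x = g x) → f = g

/-- `r : G → R` is the largest hyperlinear quotient of `G`: `R` is hyperlinear, `r` is onto and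
every homomorphism from `G` to a hyperlinear group factors through `r`. -/
def IsLargest {G R : Type} [Group G] [Group R] (r : G →* R) : Prop :=
  IsHyperlinear R ∧ Function.Surjective r ∧
    ∀ (P : Type) [Group P], IsHyperlinear P → ∀ f : G →* P, ∃ g : R →* P, g.comp r = f

variable {Q : Type} [Group Q] {K : Subgroup Q}

/-- In a hyperlinear group the elements commuting with `K` commute with its normal closure. -/
theorem KP.comm (h : KP K) {P : Type} [Group P] (hP : IsHyperlinear P) (f : Q →* P) (t : P)
    (ht : ∀ x ∈ K, t * f x = f x * t) :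
    ∀ x ∈ Subgroup.normalClosure (K : Set Q), t * f x = f x * t := by
  have h1 : Subgroup.normalClosure (K : Set Q) ≤ (Subgroup.centralizer {t}).comap f := by
    rw [Subgroup.normalClosure, Subgroup.closure_le]
    intro y hy
    obtain ⟨k, hk, hky⟩ := Group.mem_conjugatesOfSet_iff.1 hy
    obtain ⟨q, rfl⟩ := isConj_iff.1 hky
    show f (q * k * q⁻¹) ∈ Subgroup.centralizer {t}
    rw [Subgroup.mem_centralizer_singleton_iff]
    exact (s_clos P Q f K hP h.tQ h.tK h.gen t ht q k hk).symm
  intro x hx
  have h2 := h1 hx
  rw [Subgroup.mem_comap, Subgroup.mem_centralizer_singleton_iff] at h2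
  exact h2.symm

/-- the group of two elements -/
abbrev C2 : Type := Multiplicative (ZMod 2)

/-- the pair `(f, g)` in the wreath product with the group of two elements -/
def dbl {P : Type} [Group P] (f g : Q →* P) : Q →* (P ≀ᵣ C2) where
  toFun q := ⟨fun c => if c = 1 then f q else g q, 1⟩
  map_one' := by
    ext1
    · funext c
      show (if c = 1 then f 1 else g 1) = 1
      rw [map_one, map_one, ite_self]
    · rfl
  map_mul' a b := by
    ext1
    · funext c
      show (if c = 1 then f (a * b) else g (a * b)) =
        (if c = 1 then f a else g a) * (if (1 : C2)⁻¹ * c = 1 then f b else g b)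
      rw [inv_one, one_mul, map_mul, map_mul]
      split_ifs <;> rfl
    · exact (one_mul 1).symm

/-- the transposition -/
def swp (P : Type) [Group P] : P ≀ᵣ C2 := ⟨1, Multiplicative.ofAdd 1⟩

theorem swp_comm {P : Type} [Group P] (f g : Q →* P) (x : Q) :
    swp P * dbl f g x = dbl f g x * swp P ↔ f x = g x := by
  have hne : (Multiplicative.ofAdd (1 : ZMod 2) : C2)⁻¹ ≠ 1 := by decide
  constructor
  · intro h
    have h1 := congrFun (congrArg RegularWreathProduct.left h) (1 : C2)
    change (1 : P) * (if (Multiplicative.ofAdd (1 : ZMod 2) : C2)⁻¹ * 1 = 1 then f x else g x) =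
      (if (1 : C2) = 1 then f x else g x) * 1 at h1
    rw [mul_one, if_neg hne, if_pos rfl, one_mul, mul_one] at h1
    exact h1.symm
  · intro h
    ext1
    · funext c
      show (1 : P) * (if (Multiplicative.ofAdd (1 : ZMod 2) : C2)⁻¹ * c = 1 then f x else g x) =
        (if c = 1 then f x else g x) * 1
      rw [h, ite_self, ite_self, one_mul, mul_one]
    · show (Multiplicative.ofAdd (1 : ZMod 2) : C2) * 1 = 1 * Multiplicative.ofAdd 1
      rw [mul_one, one_mul]

/-- Homomorphisms to a hyperlinear group which agree on `K` agree on its normal closure. -/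
theorem KP.agree (h : KP K) {P : Type} [Group P] (hP : IsHyperlinear P) (f g : Q →* P)
    (hfg : ∀ x ∈ K, f x = g x) : ∀ x ∈ Subgroup.normalClosure (K : Set Q), f x = g x := by
  intro x hx
  have h1 := h.comm (Pool.Agent.N303.KQ.hyp_wreath (K := C2) hP) (dbl f g) (swp P)
    (fun y hy => (swp_comm f g y).2 (hfg y hy)) x hx
  exact (swp_comm f g x).1 h1

theorem KP.ep (h : KP K) (hn : Subgroup.normalClosure (K : Set Q) = ⊤) : Ep K :=
  fun _ _ hP f g hfg => MonoidHom.ext fun x => h.agree hP f g hfg x (by
    rw [hn]
    exact Subgroup.mem_top x)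

/-- Under an epimorphism the elements commuting with `K` commute with `Q`. -/
theorem Ep.comm (h : Ep K) {P : Type} [Group P] (hP : IsHyperlinear P) (f : Q →* P) (t : P)
    (ht : ∀ x ∈ K, t * f x = f x * t) (x : Q) : t * f x = f x * t := by
  have h3 := h P hP ((MulAut.conj t).toMonoidHom.comp f) f fun x hx => by
    show t * f x * t⁻¹ = f x
    rw [ht x hx, mul_inv_cancel_right]
  have h4 : t * f x * t⁻¹ = f x := DFunLike.congr_fun h3 x
  exact mul_inv_eq_iff_eq_mul.1 h4

/-! ### The double -/

/-- the fold map -/
def foldMap (K : Subgroup Q) : Monoid.PushoutI (fun _ : Fin 2 => K.subtype) →* Q :=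
  Monoid.PushoutI.lift (fun _ => MonoidHom.id Q) K.subtype fun _ => rfl

theorem foldMap_of (i : Fin 2) (q : Q) :
    foldMap K (Monoid.PushoutI.of (φ := fun _ : Fin 2 => K.subtype) i q) = q :=
  Monoid.PushoutI.lift_of _ _ _ _

theorem Ep.double (h : Ep K) (hQ : IsHyperlinear Q) : IsLargest (foldMap K) := by
  refine ⟨hQ, fun q => ⟨Monoid.PushoutI.of (φ := fun _ : Fin 2 => K.subtype) 0 q,
    foldMap_of 0 q⟩, fun P _ hP f => ?_⟩
  have h1 : ∀ i : Fin 2, f.comp (Monoid.PushoutI.of (φ := fun _ : Fin 2 => K.subtype) i) =
      f.comp (Monoid.PushoutI.of (φ := fun _ : Fin 2 => K.subtype) 0) := by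
    intro i
    refine h P hP _ _ fun x hx => ?_
    have a1 := Monoid.PushoutI.of_apply_eq_base (fun _ : Fin 2 => K.subtype) i ⟨x, hx⟩
    have a2 := Monoid.PushoutI.of_apply_eq_base (fun _ : Fin 2 => K.subtype) 0 ⟨x, hx⟩
    exact congrArg f (a1.trans a2.symm)
  refine ⟨f.comp (Monoid.PushoutI.of (φ := fun _ : Fin 2 => K.subtype) 0), ?_⟩
  refine Monoid.PushoutI.hom_ext_nonempty fun i => ?_
  rw [← h1 i]
  apply MonoidHom.ext
  intro q
  show f (Monoid.PushoutI.of i (foldMap K (Monoid.PushoutI.of i q))) = f (Monoid.PushoutI.of i q)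
  rw [foldMap_of]

/-! ### The HNN extension -/

/-- the homomorphism to the direct product with the integers -/
def hnnMap (K : Subgroup Q) : HNNExtension Q K K (MulEquiv.refl K) →* Q × Multiplicative ℤ :=
  HNNExtension.lift (MonoidHom.inl Q _) (1, Multiplicative.ofAdd 1) fun a => by
    ext1
    · show (1 : Q) * (a : Q) = (a : Q) * 1
      rw [one_mul, mul_one]
    · show (Multiplicative.ofAdd (1 : ℤ)) * 1 = 1 * Multiplicative.ofAdd 1
      rw [one_mul, mul_one]

theorem hnnMap_of (q : Q) : hnnMap K (HNNExtension.of q) = (q, 1) := HNNExtension.lift_of _ _ _ _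

theorem hnnMap_t : hnnMap K HNNExtension.t = (1, Multiplicative.ofAdd 1) :=
  HNNExtension.lift_t _ _ _

theorem Ep.hnn (h : Ep K) (hQ : IsHyperlinear Q) : IsLargest (hnnMap K) := by
  have hz : IsHyperlinear (Multiplicative ℤ) := hyp_comm _
  refine ⟨Pool.Agent.N303.KQ.hyp_prod hQ hz, ?_, fun P _ hP f => ?_⟩
  · rintro ⟨q, n⟩
    refine ⟨HNNExtension.of q * HNNExtension.t ^ (Multiplicative.toAdd n), ?_⟩
    rw [map_mul, map_zpow, hnnMap_of, hnnMap_t]
    rw [Prod.pow_mk, Prod.mk_mul_mk, one_zpow, mul_one, one_mul, ← ofAdd_zsmul]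
    simp
  · have h1 : ∀ x : Q, f HNNExtension.t * f (HNNExtension.of x) =
        f (HNNExtension.of x) * f HNNExtension.t := by
      refine h.comm hP (f.comp HNNExtension.of) (f HNNExtension.t) fun x hx => ?_
      show f HNNExtension.t * f (HNNExtension.of x) = f (HNNExtension.of x) * f HNNExtension.t
      rw [← map_mul, ← map_mul]
      exact congrArg f (HNNExtension.t_mul_of ⟨x, hx⟩)
    have hc : ∀ (q : Q) (n : Multiplicative ℤ),
        Commute ((f.comp HNNExtension.of) q) ((zpowersHom P (f HNNExtension.t)) n) := by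
      intro q n
      show f (HNNExtension.of q) * (f HNNExtension.t) ^ (Multiplicative.toAdd n) =
        (f HNNExtension.t) ^ (Multiplicative.toAdd n) * f (HNNExtension.of q)
      exact (Commute.zpow_left (h1 q) _).symm
    refine ⟨MonoidHom.noncommCoprod (f.comp HNNExtension.of)
      (zpowersHom P (f HNNExtension.t)) hc, ?_⟩
    · refine HNNExtension.hom_ext ?_ ?_
      · apply MonoidHom.ext
        intro q
        show MonoidHom.noncommCoprod _ _ hc (hnnMap K (HNNExtension.of q)) = f (HNNExtension.of q)
        rw [hnnMap_of]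
        show f (HNNExtension.of q) * (f HNNExtension.t) ^ (0 : ℤ) = f (HNNExtension.of q)
        rw [zpow_zero, mul_one]
      · show MonoidHom.noncommCoprod _ _ hc (hnnMap K HNNExtension.t) = f HNNExtension.t
        rw [hnnMap_t]
        show f (HNNExtension.of 1) * (f HNNExtension.t) ^ (1 : ℤ) = f HNNExtension.t
        rw [map_one, map_one, one_mul, zpow_one]

/-! ### The permutational wreath products -/

/-- the product of the values of a function of finite support in the abelianisation -/
def prodAb (X L : Type) [Group L] : Fs X L →* Abelianization L where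
  toFun F := ∏ᶠ x, Abelianization.of ((F : X → L) x)
  map_one' := by
    show ∏ᶠ x : X, Abelianization.of (1 : L) = 1
    simp
  map_mul' F G := by
    show ∏ᶠ x : X, Abelianization.of ((F : X → L) x * (G : X → L) x) = _
    have e : ∀ x : X, Abelianization.of ((F : X → L) x * (G : X → L) x) =
        Abelianization.of ((F : X → L) x) * Abelianization.of ((G : X → L) x) :=
      fun x => map_mul _ _ _
    rw [finprod_congr e]
    refine finprod_mul_distrib ?_ ?_
    · refine F.2.subset fun x hx h1 => hx ?_
      show Abelianization.of ((F : X → L) x) = 1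
      rw [h1, map_one]
    · refine G.2.subset fun x hx h1 => hx ?_
      show Abelianization.of ((G : X → L) x) = 1
      rw [h1, map_one]

theorem prodAb_act {X L : Type} [Group L] [MulAction Q X] (q : Q) (F : Fs X L) :
    prodAb X L (fsAct X L Q q F) = prodAb X L F := by
  show ∏ᶠ x, Abelianization.of ((F : X → L) (q⁻¹ • x)) = ∏ᶠ x, Abelianization.of ((F : X → L) x)
  exact finprod_comp_equiv (MulAction.toPerm q⁻¹ : Equiv.Perm X)
    (f := fun x => Abelianization.of ((F : X → L) x))

/-- the homomorphism to the direct product with the abelianisation -/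
def wrMap (K : Subgroup Q) (L : Type) [Group L] : PWr L K →* Abelianization L × Q where
  toFun g := (prodAb (Q ⧸ K) L g.left, g.right)
  map_one' := by
    ext1
    · exact map_one _
    · rfl
  map_mul' g g' := by
    ext1
    · show prodAb (Q ⧸ K) L (g.left * fsAct (Q ⧸ K) L Q g.right g'.left) = _
      rw [map_mul, prodAb_act]
      rfl
    · rfl

theorem wrMap_inr (L : Type) [Group L] (q : Q) :
    wrMap K L (SemidirectProduct.inr q) = (1, q) := by
  ext1
  · exact map_one _
  · rfl

theorem wrMap_emb (L : Type) [Group L] (a : L) :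
    wrMap K L (emb K L a) = (Abelianization.of a, 1) := by
  classical
  ext1
  · show ∏ᶠ x, Abelianization.of (((lampL K a : Fs (Q ⧸ K) L) : Q ⧸ K → L) x) = Abelianization.of a
    rw [finprod_eq_single _ (QuotientGroup.mk 1 : Q ⧸ K), lampL_same]
    intro x hx
    rw [lampL_ne K a hx, map_one]
  · rfl

/-- homomorphisms from a wreath product are determined on `Q` and on the lamps at the coset `K` -/
theorem pwr_ext {L P : Type} [Group L] [Group P] {f g : PWr L K →* P}
    (h1 : ∀ q : Q, f (SemidirectProduct.inr q) = g (SemidirectProduct.inr q))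
    (h2 : ∀ a : L, f (emb K L a) = g (emb K L a)) : f = g := by
  have h3 : MonoidHom.eqLocus f g = ⊤ := pwr_gen _ h1 h2
  exact MonoidHom.ext fun x => by
    have h4 : x ∈ MonoidHom.eqLocus f g := by
      rw [h3]
      exact Subgroup.mem_top x
    exact h4

theorem Ep.wreath (h : Ep K) (hne : K ≠ ⊤) (hQ : IsHyperlinear Q) (L : Type) [Group L] :
    IsLargest (wrMap K L) := by
  refine ⟨Pool.Agent.N303.KQ.hyp_prod (hyp_comm _) hQ, ?_, fun P _ hP f => ?_⟩
  · rintro ⟨a, q⟩
    obtain ⟨l, rfl⟩ := QuotientGroup.mk_surjective a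
    refine ⟨emb K L l * SemidirectProduct.inr q, ?_⟩
    rw [map_mul, wrMap_emb, wrMap_inr]
    ext1
    · exact mul_one _
    · exact one_mul _
  · obtain ⟨y, hy⟩ : ∃ y : Q, y ∉ K := by
      by_contra hcon
      push Not at hcon
      exact hne (eq_top_iff.2 fun y _ => hcon y)
    have h1 : ∀ (a : L) (x : Q), f (emb K L a) * f (SemidirectProduct.inr x) =
        f (SemidirectProduct.inr x) * f (emb K L a) := by
      intro a x
      refine h.comm hP (f.comp SemidirectProduct.inr) (f (emb K L a)) (fun x hx => ?_) x
      change f _ * f _ = f _ * f _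
      rw [← map_mul, ← map_mul]
      exact congrArg f (lampL_comm K hx a)
    have h2 : ∀ a b : L, f (emb K L a) * f (emb K L b) = f (emb K L b) * f (emb K L a) := by
      intro a b
      have h4 : f (SemidirectProduct.inr y * emb K L a * SemidirectProduct.inr y⁻¹) =
          f (emb K L a) := by
        have h5 : f (SemidirectProduct.inr y) * f (SemidirectProduct.inr y⁻¹) = 1 := by
          rw [← map_mul, ← map_mul, mul_inv_cancel, map_one, map_one]
        rw [map_mul, map_mul, ← h1, mul_assoc, h5, mul_one]
      have h3 := congrArg f (lamp_commute hy a b)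
      rw [map_mul f (_ * _ * _) (emb K L b), map_mul f (emb K L b), h4] at h3
      exact h3
    -- the homomorphism on the abelianisation
    have h6 : commutator L ≤ (f.comp (emb K L)).ker := by
      rw [commutator_def, Subgroup.commutator_le]
      intro a _ b _
      rw [MonoidHom.mem_ker, commutatorElement_def, map_mul, map_mul, map_mul, map_inv, map_inv]
      show f (emb K L a) * f (emb K L b) * (f (emb K L a))⁻¹ * (f (emb K L b))⁻¹ = 1
      rw [h2]
      group
    let fa : Abelianization L →* P := QuotientGroup.lift (commutator L) (f.comp (emb K L)) h6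
    have hfa : ∀ a : L, fa (Abelianization.of a) = f (emb K L a) := fun a => rfl
    have hc : ∀ (a : Abelianization L) (q : Q),
        Commute (fa a) (f.comp SemidirectProduct.inr q) := by
      intro a q
      obtain ⟨l, rfl⟩ := QuotientGroup.mk_surjective a
      exact h1 l q
    refine ⟨MonoidHom.noncommCoprod fa (f.comp SemidirectProduct.inr) hc, ?_⟩
    · refine pwr_ext (fun q => ?_) fun a => ?_
      · show MonoidHom.noncommCoprod _ _ hc (wrMap K L (SemidirectProduct.inr q)) = _
        rw [wrMap_inr]
        show fa 1 * f (SemidirectProduct.inr q) = f (SemidirectProduct.inr q)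
        rw [map_one, one_mul]
      · show MonoidHom.noncommCoprod _ _ hc (wrMap K L (emb K L a)) = _
        rw [wrMap_emb]
        show fa (Abelianization.of a) * f (SemidirectProduct.inr 1) = f (emb K L a)
        rw [hfa, map_one, map_one, mul_one]

end

end Pool.Agent.Helper12.EP
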