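import Pool.Agent.Helper11.CK.TT12

/-!
# EP: property (T) of `E_3(A)` for finitely generated algebras over large finite fields
-/

set_option autoImplicit false

open scoped InnerProductSpace

namespace Pool.Agent.Helper12.EP

open Pool.Agent.Helper455.KZ
open Pool.Agent.Helper278.TB
open Pool.Agent.N44.NS Pool.Agent.N169.NS
open Pool.Agent.W661.RC (HasT)

section KT

variable {Γ : Type} [Group Γ] {K : Type} [Field K] [Fintype K]
variable {H : Type} [NormedAddCommGroup H] [InnerProductSpace ℂ H] [CompleteSpace H]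

theorem pair_estN {ε : ℝ} (hε : 0 ≤ ε) (hε1 : ε ≤ 1) (hK : (Fintype.card K : ℝ)⁻¹ ≤ ε ^ 2)
    (π : Γ →* unitary (H →L[ℂ] H)) (u u' : K → Γ)
    (hu : ∀ a b, u (a + b) = u a * u b) (hu' : ∀ a b, u' (a + b) = u' a * u' b)
    (hp : HP u u') (v : H) :
    0 ≤ 2 * (⟪co (avg (uop π u)) v, co (avg (uop π u')) v⟫_ℂ).re +
      ε * (‖co (avg (uop π u)) v‖ ^ 2 + ‖co (avg (uop π u')) v‖ ^ 2) := by
  obtain ⟨z, hz, hrel, h1, h2⟩ := hp
  refine heis_pair (uop_rep π u hu) (uop_rep π u' hu') (uop_rep π z hz) ?_ ?_ ?_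
    ε hε hε1 hK v
  · intro a b x
    show (π (u a) : H →L[ℂ] H) ((π (u' b) : H →L[ℂ] H) x) = (π (u' b) : H →L[ℂ] H)
      ((π (u a) : H →L[ℂ] H) ((π (z (a * b)) : H →L[ℂ] H) x))
    rw [← uop_mul, ← uop_mul, ← uop_mul, hrel, mul_assoc]
  · intro a b x
    show (π (z a) : H →L[ℂ] H) ((π (u b) : H →L[ℂ] H) x) = (π (u b) : H →L[ℂ] H)
      ((π (z a) : H →L[ℂ] H) x)
    rw [← uop_mul, ← uop_mul, h1]
  · intro a b x
    show (π (z a) : H →L[ℂ] H) ((π (u' b) : H →L[ℂ] H) x) = (π (u' b) : H →L[ℂ] H)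
      ((π (z a) : H →L[ℂ] H) x)
    rw [← uop_mul, ← uop_mul, h2]

end KT

/-- property (T) of a group generated by `n` lines over a field with at least `n ^ 2` elements
which pairwise form Heisenberg pairs -/
theorem propT_linesN {Γ : Type} [Group Γ] {K : Type} [Field K] [Fintype K]
    {n : ℕ} (hn0 : 0 < n) (hK : n ^ 2 ≤ Fintype.card K) (u : Fin n → K → Γ)
    (hadd : ∀ i a b, u i (a + b) = u i a * u i b)
    (pair : ∀ i j, i ≠ j → HP (u i) (u j) ∨ HP (u j) (u i))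
    (gen : Subgroup.closure {g | ∃ i t, g = u i t} = ⊤) :
    ∃ S : Finset Γ, ∃ ε : ℝ, 0 < ε ∧
      ∀ (H : Type) [NormedAddCommGroup H] [InnerProductSpace ℂ H] [CompleteSpace H]
        (ρ : Γ →* unitary (H →L[ℂ] H)),
        (∃ x : H, ‖x‖ = 1 ∧ ∀ s ∈ S, ‖(ρ s : H →L[ℂ] H) x - x‖ < ε) →
          ∃ x : H, x ≠ 0 ∧ ∀ g : Γ, (ρ g : H →L[ℂ] H) x = x := by
  classical
  have hcard : Fintype.card (Fin n) = n := Fintype.card_fin n
  have hn1 : (1 : ℝ) ≤ n := by exact_mod_cast hn0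
  have hnp : (0 : ℝ) < n := by linarith
  set e : ℝ := (n : ℝ)⁻¹ with he
  have he0 : 0 < e := inv_pos.2 hnp
  have he1 : e ≤ 1 := inv_le_one_of_one_le₀ hn1
  have hce : 1 - ((n : ℝ) - 1) * e = e := by
    rw [he]
    field_simp
    ring
  have hc : (0 : ℝ) < 1 - ((n : ℝ) - 1) * e := by rw [hce]; exact he0
  have hc1 : 1 - ((n : ℝ) - 1) * e ≤ 1 := by rw [hce]; exact he1
  have hKe : (Fintype.card K : ℝ)⁻¹ ≤ e ^ 2 := by
    rw [he, inv_pow]
    refine inv_anti₀ (by positivity) ?_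
    exact_mod_cast hK
  refine ⟨(Finset.univ : Finset (Fin n × K)).image (fun q => u q.1 q.2),
    thr n (1 - ((n : ℝ) - 1) * e), thr_pos _ _ hn1 hc, ?_⟩
  intro H _ _ _ π ⟨v, hv, hsm⟩
  let Q : Fin n → H → H := fun i => co (avg (uop π (u i)))
  have hrep : ∀ i, URep (uop π (u i)) := fun i => uop_rep π _ (hadd i)
  have hQ : ∀ i, Proj (Q i) := fun i => (hrep i).avg_proj.co
  have hpair : ∀ i j, i ≠ j → ∀ v, 0 ≤ 2 * (⟪Q i v, Q j v⟫_ℂ).re +
      e * (‖Q i v‖ ^ 2 + ‖Q j v‖ ^ 2) := by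
    intro i j hij v
    rcases pair i j hij with h | h
    · exact pair_estN he0.le he1 hKe π (u i) (u j) (hadd i) (hadd j) h v
    · have := pair_estN he0.le he1 hKe π (u j) (u i) (hadd j) (hadd i) h v
      have e : (⟪Q i v, Q j v⟫_ℂ).re = (⟪Q j v, Q i v⟫_ℂ).re := by
        rw [← inner_conj_symm, Complex.conj_re]
      rw [e, add_comm (‖Q i v‖ ^ 2)]
      exact this
  have hDE : ∀ v, (1 - ((n : ℝ) - 1) * e) * EE Q v ≤ ‖DD Q v‖ ^ 2 := by
    intro v
    have := DD_lower Q e hpair v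
    rwa [hcard] at this
  have hv' : ∀ i, ‖Q i v‖ ≤ thr (Fintype.card (Fin n) : ℝ) (1 - ((n : ℝ) - 1) * e) := by
    intro i
    rw [hcard]
    refine co_avg_small v _ fun a => ?_
    exact (hsm (u i a) (Finset.mem_image.mpr ⟨(i, a), Finset.mem_univ _, rfl⟩)).le
  obtain ⟨w, hw, hwi⟩ := exists_invariant (by rw [hcard]; exact hn0) Q hQ _ hc hc1 hDE v hv hv'
  refine ⟨w, hw, ?_⟩
  let St : Subgroup Γ :=
    { carrier := {g | (π g : H →L[ℂ] H) w = w}
      one_mem' := by simp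
      mul_mem' := by
        intro a b ha hb
        show (π (a * b) : H →L[ℂ] H) w = w
        have ha' : (π a : H →L[ℂ] H) w = w := ha
        have hb' : (π b : H →L[ℂ] H) w = w := hb
        rw [uop_mul, hb', ha']
      inv_mem' := by
        intro a ha
        show (π a⁻¹ : H →L[ℂ] H) w = w
        have ha' : (π a : H →L[ℂ] H) w = w := ha
        have h1 : (π a⁻¹ : H →L[ℂ] H) ((π a : H →L[ℂ] H) w) = w := by
          rw [← uop_mul, inv_mul_cancel]; simp
        rwa [ha'] at h1 }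
  have hle : Subgroup.closure {g | ∃ i t, g = u i t} ≤ St := by
    rw [Subgroup.closure_le]
    rintro _ ⟨i, t, rfl⟩
    show (π (u i t) : H →L[ℂ] H) w = w
    have h1 : avg (uop π (u i)) w = w := by
      have : w - avg (uop π (u i)) w = 0 := hwi i
      rw [sub_eq_zero] at this
      exact this.symm
    have h3 := (hrep i).fix_avg t w
    rw [h1] at h3
    exact h3
  intro g
  rw [gen] at hle
  exact hle (Subgroup.mem_top g)

open Pool.Agent.Helper11.CK in
/-- **Property (T) of `E_3(A)`** for an algebra generated by `m` elements over a field with at least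
`(m + 3) ^ 2` elements. -/
theorem tE3 (F : Type) [Field F] [Fintype F] (A : Type) [Ring A] [Algebra F A]
    (m : ℕ) (g : Fin m → A) (hm : (3 + m) ^ 2 ≤ Fintype.card F)
    (hg : Algebra.adjoin F (Set.range g) = ⊤) : HasT (E3 A) := by
  obtain ⟨S, ε, hε, hT⟩ := propT_linesN (Γ := E3 A) (n := 3 + m) (by omega) hm
    (um g) (fun n a b => by unfold um; rw [add_smul, eE_add]) (fun i j _ => pairsm g i j) (genm g hg)
  intro H _ _ _ π hπ
  exact hT H π (hπ S ε hε)

end Pool.Agent.Helper12.EP
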