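import Pool.Graph.R_pool_sql_team_seeded_63374d34.N169.NS.TT

/-!
# EP: diagonal matrices in the elementary group
-/

set_option autoImplicit false

namespace Pool.Agent.Helper12.EP

open Pool.Agent.N44.NS Pool.Agent.N169.NS
open scoped commutatorElement

noncomputable section

set_option linter.unusedSimpArgs false

variable {A : Type} [Ring A]

/-- the diagonal matrices -/
def dU : (Fin 3 → Aˣ) →* (Matrix (Fin 3) (Fin 3) A)ˣ :=
  (Units.map (Matrix.diagonalRingHom (Fin 3) A).toMonoidHom).comp MulEquiv.piUnits.symm.toMonoidHom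

theorem dU_val (c : Fin 3 → Aˣ) :
    ((dU c : (Matrix (Fin 3) (Fin 3) A)ˣ) : Matrix (Fin 3) (Fin 3) A) =
      Matrix.diagonal (fun i => ((c i : Aˣ) : A)) := rfl

theorem dU_inv_val (c : Fin 3 → Aˣ) :
    (((dU c)⁻¹ : (Matrix (Fin 3) (Fin 3) A)ˣ) : Matrix (Fin 3) (Fin 3) A) =
      Matrix.diagonal (fun i => (((c i)⁻¹ : Aˣ) : A)) := by
  rw [← map_inv, dU_val]
  rfl

theorem el_mem {i j : Fin 3} (h : i ≠ j) (a : A) : el i j h a ∈ E3 A :=
  Subgroup.subset_closure ⟨i, j, h, a, rfl⟩

theorem el_val {i j : Fin 3} (h : i ≠ j) (a : A) :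
    ((el i j h a : (Matrix (Fin 3) (Fin 3) A)ˣ) : Matrix (Fin 3) (Fin 3) A) =
      1 + Matrix.single i j a := rfl

/-- Whitehead's lemma -/
theorem wh {i j : Fin 3} (h : i ≠ j) (u : Aˣ) :
    dU (Pi.mulSingle i u * Pi.mulSingle j u⁻¹) = el i j h (u : A) * el j i h.symm (-((u⁻¹ : Aˣ) : A)) *
      el i j h (u : A) * (el i j h (-1) * el j i h.symm 1 * el i j h (-1)) := by
  apply Units.ext
  simp only [Units.val_mul, dU_val, el_val]
  have e1 : (Matrix.diagonal fun k => (((Pi.mulSingle i u * Pi.mulSingle j u⁻¹ : Fin 3 → Aˣ) k :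
      Aˣ) : A)) = (1 - Matrix.single i i 1 - Matrix.single j j 1 + Matrix.single i i (u : A) +
        Matrix.single j j ((u⁻¹ : Aˣ) : A) : Matrix (Fin 3) (Fin 3) A) := by
    ext a b
    by_cases hab : a = b
    · subst hab
      rw [Matrix.diagonal_apply_eq]
      by_cases hai : a = i
      · subst hai
        simp [Matrix.single_apply, h, h.symm, Pi.mulSingle_eq_of_ne h]
      · by_cases haj : a = j
        · subst haj
          simp [Matrix.single_apply, h, h.symm, Pi.mulSingle_eq_of_ne h.symm]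
        · simp [Matrix.single_apply, Ne.symm hai, Ne.symm haj, Pi.mulSingle_eq_of_ne hai,
            Pi.mulSingle_eq_of_ne haj]
    · rw [Matrix.diagonal_apply_ne _ hab]
      have h1 : ∀ (k : Fin 3) (c : A), (Matrix.single k k c : Matrix (Fin 3) (Fin 3) A) a b = 0 := by
        intro k c
        rw [Matrix.single_apply, if_neg]
        rintro ⟨h1, h2⟩
        exact hab (h1.symm.trans h2)
      simp [h1, Matrix.one_apply_ne hab]
  rw [e1]
  have s1 : ∀ a b : A, (Matrix.single i j a * Matrix.single i j b : Matrix (Fin 3) (Fin 3) A) = 0 :=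
    fun a b => Matrix.single_mul_single_of_ne _ _ _ _ h.symm _
  have s2 : ∀ a b : A, (Matrix.single j i a * Matrix.single j i b : Matrix (Fin 3) (Fin 3) A) = 0 :=
    fun a b => Matrix.single_mul_single_of_ne _ _ _ _ h _
  have w : ∀ v : Aˣ, ((1 + Matrix.single i j (v : A)) * (1 + Matrix.single j i (-((v⁻¹ : Aˣ) : A))) *
      (1 + Matrix.single i j (v : A)) : Matrix (Fin 3) (Fin 3) A) =
      1 - Matrix.single i i 1 - Matrix.single j j 1 + Matrix.single i j (v : A) -
        Matrix.single j i ((v⁻¹ : Aˣ) : A) := by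
    intro v
    have n1 : (Matrix.single j i (-((v⁻¹ : Aˣ) : A)) : Matrix (Fin 3) (Fin 3) A) =
        - Matrix.single j i ((v⁻¹ : Aˣ) : A) := (Matrix.single_neg _ _ _).symm
    rw [n1]
    simp only [mul_add, add_mul, mul_neg, neg_mul, one_mul, mul_one, s1, s2,
      Matrix.single_mul_single_same, Units.mul_inv, Units.inv_mul, mul_zero, add_zero, zero_mul]
    abel
  have w1 := w u
  have w2 := w (-1)
  simp only [Units.val_neg, Units.val_one, inv_neg, inv_one, neg_neg] at w2
  rw [w1, w2]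
  have t : ∀ a b c d : Fin 3, b ≠ c → ∀ x y : A,
      (Matrix.single a b x * Matrix.single c d y : Matrix (Fin 3) (Fin 3) A) = 0 :=
    fun a b c d hbc x y => Matrix.single_mul_single_of_ne _ _ _ _ hbc _
  have n2 : (Matrix.single i j (-1) : Matrix (Fin 3) (Fin 3) A) =
        - Matrix.single i j 1 := (Matrix.single_neg _ _ _).symm
  have n3 : (Matrix.single j i (-1) : Matrix (Fin 3) (Fin 3) A) =
        - Matrix.single j i 1 := (Matrix.single_neg _ _ _).symm
  rw [n2, n3]
  simp only [mul_add, add_mul, mul_sub, sub_mul, mul_neg, neg_mul, one_mul, mul_one,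
    Matrix.single_mul_single_same, t _ _ _ _ h, t _ _ _ _ h.symm, sub_zero, add_zero, zero_sub,
    neg_neg, neg_zero, zero_add]
  abel

theorem pair_mem {i j : Fin 3} (h : i ≠ j) (u : Aˣ) :
    dU (Pi.mulSingle i u * Pi.mulSingle j u⁻¹) ∈ E3 A := by
  rw [wh h]
  exact mul_mem (mul_mem (mul_mem (el_mem _ _) (el_mem _ _)) (el_mem _ _))
    (mul_mem (mul_mem (el_mem _ _) (el_mem _ _)) (el_mem _ _))

theorem all3 : ∀ i j k l : Fin 3, i ≠ j → i ≠ k → j ≠ k → l = i ∨ l = j ∨ l = k := by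
  decide

/-- commutators on the diagonal -/
theorem single_comm_mem (i : Fin 3) (u v : Aˣ) : dU (Pi.mulSingle i ⁅u, v⁆) ∈ E3 A := by
  obtain ⟨j, k, hij, hik, hjk⟩ : ∃ j k : Fin 3, i ≠ j ∧ i ≠ k ∧ j ≠ k := by
    revert i
    decide
  have h1 := pair_mem hij u
  have h2 := pair_mem hik v
  have e : (Pi.mulSingle i ⁅u, v⁆ : Fin 3 → Aˣ) =
      ⁅(Pi.mulSingle i u * Pi.mulSingle j u⁻¹ : Fin 3 → Aˣ),
        (Pi.mulSingle i v * Pi.mulSingle k v⁻¹ : Fin 3 → Aˣ)⁆ := by
    funext l
    have h3 : l = i ∨ l = j ∨ l = k := all3 i j k l hij hik hjk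
    rw [commutatorElement_def, commutatorElement_def]
    simp only [Pi.mul_apply, Pi.inv_apply]
    rcases h3 with rfl | rfl | rfl
    · simp [Pi.mulSingle_eq_of_ne hij, Pi.mulSingle_eq_of_ne hik]
    · simp [Pi.mulSingle_eq_of_ne hij.symm, Pi.mulSingle_eq_of_ne hjk]
    · simp [Pi.mulSingle_eq_of_ne hik.symm, Pi.mulSingle_eq_of_ne hjk.symm]
  rw [e, map_commutatorElement, commutatorElement_def]
  exact mul_mem (mul_mem (mul_mem h1 h2) (inv_mem h1)) (inv_mem h2)

/-- scalar matrices with entries in the image of a perfect group -/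
theorem scalar_mem {G : Type} [Group G] (hG : commutator G = ⊤) (f : G →* Aˣ) (g : G) :
    dU (fun _ => f g) ∈ E3 A := by
  have h1 : ∀ i : Fin 3, ∀ g : G, dU (Pi.mulSingle i (f g)) ∈ E3 A := by
    intro i
    let T : G →* (Matrix (Fin 3) (Fin 3) A)ˣ := dU.comp ((MonoidHom.mulSingle _ i).comp f)
    have h2 : commutator G ≤ (E3 A).comap T := by
      rw [commutator_def, Subgroup.commutator_le]
      intro a _ b _
      rw [Subgroup.mem_comap]
      change dU (Pi.mulSingle i (f ⁅a, b⁆)) ∈ E3 A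
      rw [map_commutatorElement]
      exact single_comm_mem i _ _
    intro g
    have h3 : g ∈ commutator G := by rw [hG]; exact Subgroup.mem_top _
    exact h2 h3
  have e : (fun _ => f g : Fin 3 → Aˣ) =
      Pi.mulSingle 0 (f g) * Pi.mulSingle 1 (f g) * Pi.mulSingle 2 (f g) := by
    funext i
    fin_cases i <;> simp [Pi.mulSingle, Function.update]
  rw [e, map_mul, map_mul]
  exact mul_mem (mul_mem (h1 0 g) (h1 1 g)) (h1 2 g)

end

end Pool.Agent.Helper12.EP
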