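import Pool.Agent.Helper12.EP.Star
import Pool.Agent.Helper12.EP.Wh
import Pool.Agent.Helper12.EP.T
import Pool.Agent.Helper8.CK.Grp

/-!
# EP: elementary groups of group algebras
-/

set_option autoImplicit false

namespace Pool.Agent.Helper12.EP

open Pool.Agent.N44.NS Pool.Agent.N169.NS
open Pool.Agent.Helper3.CK (RF)
open Pool.Agent.W661.RC (HasT)
open scoped commutatorElement

noncomputable section

section functor

variable {A B : Type} [Ring A] [Ring B]

theorem e3_closure : Subgroup.closure {x : E3 A | ∃ (i j : Fin 3) (h : i ≠ j) (a : A),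
    x = eE i j h a} = ⊤ := by
  rw [eq_top_iff]
  rintro ⟨x, hx⟩ -
  refine Subgroup.closure_induction (p := fun x hx => (⟨x, hx⟩ : E3 A) ∈
    Subgroup.closure {x : E3 A | ∃ (i j : Fin 3) (h : i ≠ j) (a : A), x = eE i j h a})
    ?_ ?_ ?_ ?_ hx
  · rintro x ⟨i, j, h, a, rfl⟩
    exact Subgroup.subset_closure ⟨i, j, h, a, rfl⟩
  · exact one_mem _
  · intro x y hx hy h1 h2
    exact mul_mem h1 h2
  · intro x hx h1
    exact inv_mem h1

theorem map_el (f : B →+* A) {i j : Fin 3} (h : i ≠ j) (b : B) :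
    Units.map f.mapMatrix.toMonoidHom (el i j h b) = el i j h (f b) := by
  apply Units.ext
  change f.mapMatrix (1 + Matrix.single i j b) = 1 + Matrix.single i j (f b)
  rw [map_add, map_one]
  congr 1
  ext a c
  simp [Matrix.single_apply, apply_ite f]

/-- functoriality -/
def e3map (f : B →+* A) : E3 B →* E3 A :=
  ((Units.map f.mapMatrix.toMonoidHom).comp (E3 B).subtype).codRestrict (E3 A) (by
    rintro ⟨x, hx⟩
    change Units.map f.mapMatrix.toMonoidHom x ∈ E3 A
    have h : E3 B ≤ (E3 A).comap (Units.map f.mapMatrix.toMonoidHom) := by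
      refine (Subgroup.closure_le _).2 ?_
      rintro _ ⟨i, j, h, a, rfl⟩
      rw [SetLike.mem_coe, Subgroup.mem_comap, map_el]
      exact el_mem _ _
    exact h hx)

theorem e3map_eE (f : B →+* A) {i j : Fin 3} (h : i ≠ j) (b : B) :
    e3map f (eE i j h b) = eE i j h (f b) := Subtype.ext (map_el f h b)

theorem e3map_entry (f : B →+* A) (x : E3 B) (i j : Fin 3) :
    ((e3map f x : (Matrix (Fin 3) (Fin 3) A)ˣ) : Matrix (Fin 3) (Fin 3) A) i j =
      f (((x : (Matrix (Fin 3) (Fin 3) B)ˣ) : Matrix (Fin 3) (Fin 3) B) i j) := rfl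

theorem range_eq (f : B →+* A) : (e3map f).range =
    Subgroup.closure {x : E3 A | ∃ (i j : Fin 3) (h : i ≠ j) (b : B), x = eE i j h (f b)} := by
  rw [MonoidHom.range_eq_map, ← e3_closure, MonoidHom.map_closure]
  congr 1
  ext x
  constructor
  · rintro ⟨_, ⟨i, j, h, b, rfl⟩, rfl⟩
    exact ⟨i, j, h, b, e3map_eE f h b⟩
  · rintro ⟨i, j, h, b, rfl⟩
    exact ⟨_, ⟨i, j, h, b, rfl⟩, e3map_eE f h b⟩

end functor

section alg

variable (F : Type) [Field F] {M : Type} [Monoid M]

theorem adjoin_top {S : Set M} (hS : Submonoid.closure S = ⊤) :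
    Algebra.adjoin F (MonoidAlgebra.of F M '' S) = ⊤ := by
  rw [eq_top_iff]
  rintro f -
  induction f using MonoidAlgebra.induction_on with
  | of m =>
    have : m ∈ Submonoid.closure S := hS.symm ▸ Submonoid.mem_top _
    refine Submonoid.closure_induction (fun m hm => ?_) ?_ ?_ this
    · exact Algebra.subset_adjoin ⟨m, hm, rfl⟩
    · rw [map_one]
      exact one_mem _
    · intro m₁ m₂ _ _ h1 h2
      rw [map_mul]
      exact mul_mem h1 h2
  | add f g hf hg => exact add_mem hf hg
  | smul r f hf => exact Subalgebra.smul_mem _ hf r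

/-- property (T) of the elementary group of a group algebra -/
theorem hasT_alg [Fintype F] {m : ℕ} (g : Fin m → M) (hg : Submonoid.closure (Set.range g) = ⊤)
    (hm : (3 + m) ^ 2 ≤ Fintype.card F) : HasT (E3 (MonoidAlgebra F M)) := by
  refine tE3 F (MonoidAlgebra F M) m (fun i => MonoidAlgebra.of F M (g i)) hm ?_
  have := adjoin_top F hg
  rwa [← Set.range_comp] at this

end alg

variable (F : Type) [Field F] {G : Type} [Group G] (H : Subgroup G)

/-- the inclusion of the group algebras -/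
abbrev inc : MonoidAlgebra F H →+* MonoidAlgebra F G := MonoidAlgebra.mapDomainRingHom F H.subtype

/-- the subgroup -/
def KK : Subgroup (E3 (MonoidAlgebra F G)) := (e3map (inc F H)).range

theorem KK_eq : KK F H = Subgroup.closure {x : E3 (MonoidAlgebra F G) |
    ∃ (i j : Fin 3) (h : i ≠ j) (b : MonoidAlgebra F H), x = eE i j h (inc F H b)} := range_eq _

theorem mem_KK {i j : Fin 3} (h : i ≠ j) (b : MonoidAlgebra F H) : eE i j h (inc F H b) ∈ KK F H :=
  ⟨eE i j h b, e3map_eE _ h b⟩

variable {F} in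
theorem inc_of (h : H) : inc F H (MonoidAlgebra.of F H h) = MonoidAlgebra.of F G h := by
  simp [inc]

/-- the units given by the group elements -/
def gu : G →* (MonoidAlgebra F G)ˣ := (MonoidAlgebra.of F G).toHomUnits

variable {F} in
theorem gu_val (g : G) : ((gu F g : (MonoidAlgebra F G)ˣ) : MonoidAlgebra F G) =
    MonoidAlgebra.of F G g := rfl

variable {H}

/-- scalar matrices -/
def sg (hG : commutator G = ⊤) : G →* E3 (MonoidAlgebra F G) where
  toFun g := ⟨dU fun _ => gu F g, scalar_mem hG (gu F) g⟩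
  map_one' := by
    apply Subtype.ext
    change dU (fun _ => gu F (1 : G)) = 1
    rw [map_one]
    exact map_one _
  map_mul' a b := by
    apply Subtype.ext
    change dU (fun _ => gu F (a * b)) = dU (fun _ => gu F a) * dU (fun _ => gu F b)
    rw [← map_mul]
    congr 1
    funext i
    exact map_mul _ _ _

variable {F}

theorem sg_conj (hG : commutator G = ⊤) (g : G) {i j : Fin 3} (h : i ≠ j) (r : MonoidAlgebra F G) :
    sg F hG g * eE i j h r * (sg F hG g)⁻¹ =
      eE i j h (MonoidAlgebra.of F G g * r * MonoidAlgebra.of F G g⁻¹) := by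
  rw [mul_inv_eq_iff_eq_mul]
  apply Subtype.ext
  apply Units.ext
  change (Matrix.diagonal (fun _ => MonoidAlgebra.of F G g) : Matrix (Fin 3) (Fin 3) _) *
    (1 + Matrix.single i j r) =
    (1 + Matrix.single i j (MonoidAlgebra.of F G g * r * MonoidAlgebra.of F G g⁻¹)) *
      Matrix.diagonal (fun _ => MonoidAlgebra.of F G g)
  rw [mul_add, add_mul, mul_one, one_mul]
  congr 1
  ext a b
  rw [Matrix.diagonal_mul, Matrix.mul_diagonal, Matrix.single_apply, Matrix.single_apply]
  split_ifs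
  · rw [mul_assoc, ← map_mul, inv_mul_cancel, map_one, mul_one]
  · rw [mul_zero, zero_mul]

/-- elements which conjugate `H` into itself -/
theorem conj_inc {s : G} (hs : ∀ x ∈ H, s⁻¹ * x * s ∈ H) (b : MonoidAlgebra F H) :
    ∃ c : MonoidAlgebra F H, MonoidAlgebra.of F G s⁻¹ * inc F H b * MonoidAlgebra.of F G s =
      inc F H c := by
  induction b using MonoidAlgebra.induction_on with
  | of h =>
    refine ⟨MonoidAlgebra.of F H ⟨s⁻¹ * h * s, hs h h.2⟩, ?_⟩
    rw [inc_of, inc_of, map_mul, map_mul]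
  | add f g hf hg =>
    obtain ⟨c, hc⟩ := hf
    obtain ⟨d, hd⟩ := hg
    exact ⟨c + d, by rw [map_add, map_add, ← hc, ← hd, mul_add, add_mul]⟩
  | smul r f hf =>
    obtain ⟨c, hc⟩ := hf
    have e : ∀ (r : F) (b : MonoidAlgebra F H), inc F H (r • b) = r • inc F H b := by
      intro r b
      have h1 : r • b = algebraMap F (MonoidAlgebra F H) r * b := Algebra.smul_def r b
      have h2 : r • inc F H b = algebraMap F (MonoidAlgebra F G) r * inc F H b :=
        Algebra.smul_def r _
      rw [h1, h2, map_mul]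
      congr 1
      simp [inc]
    exact ⟨r • c, by rw [e, e, ← hc, mul_smul_comm, smul_mul_assoc]⟩

theorem comp_KK (hG : commutator G = ⊤) {s : G} (hs : ∀ x ∈ H, s⁻¹ * x * s ∈ H) :
    ∀ y ∈ KK F H, (sg F hG s)⁻¹ * y * sg F hG s ∈ KK F H := by
  have h : KK F H ≤ (KK F H).comap (MulAut.conj (sg F hG s)⁻¹).toMonoidHom := by
    nth_rewrite 1 [KK_eq]
    refine (Subgroup.closure_le _).2 ?_
    rintro _ ⟨i, j, h, b, rfl⟩
    change MulAut.conj (sg F hG s)⁻¹ _ ∈ KK F H
    rw [MulAut.conj_apply, ← map_inv, sg_conj, inv_inv]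
    obtain ⟨c, hc⟩ := conj_inc hs b
    rw [hc]
    exact mem_KK F H h c
  intro y hy
  have h1 := h hy
  change MulAut.conj (sg F hG s)⁻¹ y ∈ KK F H at h1
  rwa [MulAut.conj_apply, inv_inv] at h1

/-- the group is generated by elements which conjugate `KK` into itself -/
theorem gen_KK (hG : commutator G = ⊤)
    (hgen : Subgroup.closure {s : G | ∀ x ∈ H, s⁻¹ * x * s ∈ H} = ⊤)
    (hncl : Subgroup.normalClosure (H : Set G) = ⊤) :
    Subgroup.closure {s : E3 (MonoidAlgebra F G) | ∀ x ∈ KK F H, s⁻¹ * x * s ∈ KK F H} = ⊤ := by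
  set C := Subgroup.closure {s : E3 (MonoidAlgebra F G) | ∀ x ∈ KK F H, s⁻¹ * x * s ∈ KK F H}
    with hC
  have hK : KK F H ≤ C := fun y hy => Subgroup.subset_closure fun x hx =>
    mul_mem (mul_mem (inv_mem hy) hx) hy
  have hsg : ∀ g : G, sg F hG g ∈ C := by
    have h1 : (⊤ : Subgroup G) ≤ C.comap (sg F hG) := by
      rw [← hgen]
      refine (Subgroup.closure_le _).2 fun s hs => ?_
      exact Subgroup.subset_closure (comp_KK hG hs)
    exact fun g => h1 (Subgroup.mem_top g)
  -- the group elements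
  let N : Subgroup G :=
    { carrier := {x | (∀ (i j : Fin 3) (h : i ≠ j), eE i j h (MonoidAlgebra.of F G x) ∈ C) ∧
        ∀ (i j : Fin 3) (h : i ≠ j), eE i j h (MonoidAlgebra.of F G x⁻¹) ∈ C}
      one_mem' := by
        have h1 : ∀ (i j : Fin 3) (h : i ≠ j), eE i j h (MonoidAlgebra.of F G (1 : G)) ∈ C := by
          intro i j h
          have h2 := hK (mem_KK F H h (MonoidAlgebra.of F H 1))
          rwa [inc_of] at h2
        exact ⟨h1, by rw [inv_one]; exact h1⟩
      mul_mem' := by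
        rintro a b ⟨a1, a2⟩ ⟨b1, b2⟩
        refine ⟨fun i j h => ?_, fun i j h => ?_⟩
        · obtain ⟨l, hil, hlj⟩ := third i j
          rw [map_mul]
          exact mem_mul C hil hlj h (a1 _ _ _) (b1 _ _ _)
        · obtain ⟨l, hil, hlj⟩ := third i j
          rw [mul_inv_rev, map_mul]
          exact mem_mul C hil hlj h (b2 _ _ _) (a2 _ _ _)
      inv_mem' := by
        rintro a ⟨a1, a2⟩
        exact ⟨a2, by rw [inv_inv]; exact a1⟩ }
  have hconj : ∀ (g x : G) (i j : Fin 3) (h : i ≠ j), eE i j h (MonoidAlgebra.of F G x) ∈ C →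
      eE i j h (MonoidAlgebra.of F G (g * x * g⁻¹)) ∈ C := by
    intro g x i j h hx
    rw [map_mul, map_mul, ← sg_conj hG g h]
    exact mul_mem (mul_mem (hsg g) hx) (inv_mem (hsg g))
  have hN : N.Normal := ⟨fun x hx g => by
    refine ⟨fun i j h => hconj g x i j h (hx.1 i j h), fun i j h => ?_⟩
    have e : (g * x * g⁻¹)⁻¹ = g * x⁻¹ * g⁻¹ := by group
    rw [e]
    exact hconj g _ i j h (hx.2 i j h)⟩
  have hHN : (H : Set G) ⊆ N := by
    intro x hx
    have h1 : ∀ y ∈ H, ∀ (i j : Fin 3) (h : i ≠ j), eE i j h (MonoidAlgebra.of F G y) ∈ C := by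
      intro y hy i j h
      have h2 := hK (mem_KK F H h (MonoidAlgebra.of F H ⟨y, hy⟩))
      rwa [inc_of] at h2
    exact ⟨h1 x hx, h1 _ (inv_mem hx)⟩
  have hall : ∀ x : G, x ∈ N := by
    intro x
    have h1 : Subgroup.normalClosure (H : Set G) ≤ N := Subgroup.normalClosure_le_normal hHN
    rw [hncl] at h1
    exact h1 (Subgroup.mem_top x)
  rw [eq_top_iff, ← e3_closure]
  refine (Subgroup.closure_le _).2 ?_
  rintro _ ⟨i, j, h, r, rfl⟩
  revert i j h
  induction r using MonoidAlgebra.induction_on with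
  | of g => exact (hall g).1
  | add f g hf hg =>
    intro i j h
    rw [eE_add]
    exact mul_mem (hf i j h) (hg i j h)
  | smul r f hf =>
    intro i j h
    have e : r • f = (r • (1 : MonoidAlgebra F G)) * f := by rw [smul_mul_assoc, one_mul]
    obtain ⟨l, hil, hlj⟩ := third i j
    rw [e]
    refine mem_mul C hil hlj h ?_ (hf _ _ _)
    have h2 := hK (mem_KK F H hil (algebraMap F _ r))
    have e2 : inc F H (algebraMap F _ r) = r • (1 : MonoidAlgebra F G) := by
      rw [← Algebra.algebraMap_eq_smul_one]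
      simp [inc]
    rwa [e2] at h2

/-- the normal closure of `KK` -/
theorem ncl_KK : Subgroup.normalClosure ((KK F H : Subgroup (E3 (MonoidAlgebra F G))) :
    Set (E3 (MonoidAlgebra F G))) = ⊤ := by
  set N := Subgroup.normalClosure ((KK F H : Subgroup (E3 (MonoidAlgebra F G))) :
    Set (E3 (MonoidAlgebra F G))) with hN
  have hn : N.Normal := Subgroup.normalClosure_normal
  rw [eq_top_iff, ← e3_closure]
  refine (Subgroup.closure_le _).2 ?_
  rintro _ ⟨i, j, h, r, rfl⟩
  obtain ⟨l, hil, hlj⟩ := third i j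
  have h1 : eE i l hil (1 : MonoidAlgebra F G) ∈ N := by
    have h2 := mem_KK F H hil 1
    rw [map_one] at h2
    exact Subgroup.subset_normalClosure h2
  have h3 := eE_rel hil hlj h 1 r
  have e : eE i j h (1 * r) = (eE i l hil 1)⁻¹ * ((eE l j hlj r)⁻¹ * eE i l hil 1 *
      ((eE l j hlj r)⁻¹)⁻¹) := by
    have e' : eE i j h (1 * r) = (eE i l hil 1)⁻¹ * (eE l j hlj r)⁻¹ *
        (eE i l hil 1 * eE l j hlj r) := by
      rw [h3]
      group
    rw [e']
    group
  rw [one_mul] at e
  rw [e]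
  exact mul_mem (inv_mem h1) (hn.conj_mem _ h1 _)

/-- `KK` is a proper subgroup -/
theorem ne_KK (hH : H ≠ ⊤) : KK F H ≠ ⊤ := by
  intro htop
  obtain ⟨g, hg⟩ : ∃ g : G, g ∉ H := by
    by_contra h
    push Not at h
    exact hH ((Subgroup.eq_top_iff' H).2 h)
  have h1 : eE 0 1 (by decide) (MonoidAlgebra.of F G g) ∈ KK F H := by
    rw [htop]
    exact Subgroup.mem_top _
  obtain ⟨x, hx⟩ := h1
  have h2 := e3map_entry (inc F H) x 0 1
  rw [hx] at h2
  have h3 : (((eE 0 1 (by decide) (MonoidAlgebra.of F G g) : E3 (MonoidAlgebra F G)) :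
      (Matrix (Fin 3) (Fin 3) (MonoidAlgebra F G))ˣ) : Matrix (Fin 3) (Fin 3) _) 0 1 =
      MonoidAlgebra.of F G g := by
    change (1 + Matrix.single 0 1 (MonoidAlgebra.of F G g) : Matrix (Fin 3) (Fin 3) _) 0 1 = _
    rw [Matrix.add_apply, Matrix.one_apply_ne (by decide), Matrix.single_apply_same, zero_add]
  rw [h3] at h2
  set b := ((x : (Matrix (Fin 3) (Fin 3) (MonoidAlgebra F H))ˣ) :
    Matrix (Fin 3) (Fin 3) (MonoidAlgebra F H)) 0 1 with hb
  have h4 := congrArg (fun r : MonoidAlgebra F G => r.coeff g) h2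
  have h5 : (inc F H b).coeff g = 0 := by
    have h6 : (inc F H b).coeff = Finsupp.mapDomain H.subtype b.coeff := rfl
    rw [h6, Finsupp.mapDomain_of_notMem_range]
    rintro ⟨y, rfl⟩
    exact hg y.2
  have h7 : (MonoidAlgebra.of F G g).coeff g = 1 := by
    simp [MonoidAlgebra.of_apply]
  simp only [h5, h7] at h4
  exact one_ne_zero h4

end

end Pool.Agent.Helper12.EP
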