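import Pool.Agent.Helper12.EP.Cert
import Pool.Agent.Helper12.EP.Free

/-!
# EP: the pair of groups
-/

set_option autoImplicit false

namespace Pool.Agent.Helper12.EP

open Pool.Agent.Helper3.CK (RF)
open scoped commutatorElement

/-- The properties of the pair of groups: `G` is residually finite, finitely generated and perfect,
the subgroup `H` is finitely generated and proper, its normal closure is `G`, and `G` is generated
by elements which conjugate `H` into itself. -/
structure Star (G : Type) [Group G] (H : Subgroup G) : Prop where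
  rf : RF G
  fg : Group.FG G
  fgH : Group.FG H
  perf : commutator G = ⊤
  gen : Subgroup.closure {s : G | ∀ x ∈ H, s⁻¹ * x * s ∈ H} = ⊤
  ncl : Subgroup.normalClosure (H : Set G) = ⊤
  ne : H ≠ ⊤

theorem star_GG : Star GG (HH.subgroupOf GG) where
  rf := Pool.Agent.Helper8.CK.RF.sub (aut_rf Lt) GG
  fg := (Group.fg_iff_subgroup_fg GG).2 ((Subgroup.fg_iff GG).2
    ⟨gH ∪ gA, rfl, gH_finite.union gA_finite⟩)
  fgH := by
    have h1 : Group.FG HH := (Group.fg_iff_subgroup_fg HH).2 ((Subgroup.fg_iff HH).2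
      ⟨gH, rfl, gH_finite⟩)
    exact Group.fg_of_surjective (f := (Subgroup.subgroupOfEquivOfLe HH_le).symm.toMonoidHom)
      (Subgroup.subgroupOfEquivOfLe HH_le).symm.surjective
  perf := by
    have h1 : GG ≤ (commutator GG).map GG.subtype := by
      rw [commutator_def, Subgroup.map_commutator, ← MonoidHom.range_eq_map, Subgroup.range_subtype]
      exact GG_perfect
    rw [eq_top_iff]
    rintro x -
    obtain ⟨y, hy, hxy⟩ := h1 x.2
    have e : y = x := Subtype.ext hxy
    rwa [← e]
  gen := by
    set C := Subgroup.closure {s : GG | ∀ x ∈ HH.subgroupOf GG, s⁻¹ * x * s ∈ HH.subgroupOf GG}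
      with hC
    have h1 : GG ≤ C.map GG.subtype := by
      refine (Subgroup.closure_le _).2 ?_
      rintro y (hy | ⟨p, rfl⟩)
      · have hyH : y ∈ HH := Subgroup.subset_closure hy
        refine ⟨⟨y, HH_le hyH⟩, Subgroup.subset_closure fun x hx => ?_, rfl⟩
        exact mul_mem (mul_mem (inv_mem hyH) hx) hyH
      · refine ⟨⟨_, A_mem p⟩, Subgroup.subset_closure fun x hx => ?_, rfl⟩
        exact comp p x hx
    rw [eq_top_iff]
    rintro x -
    obtain ⟨y, hy, hxy⟩ := h1 x.2
    have e : y = x := Subtype.ext hxy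
    rwa [← e]
  ncl := by
    set N := Subgroup.normalClosure ((HH.subgroupOf GG : Subgroup GG) : Set GG) with hN
    have h1 : GG ≤ N.map GG.subtype := by
      refine GG_le_of_normal _ ?_ ?_
      · intro y hy
        exact ⟨⟨y, HH_le hy⟩, Subgroup.subset_normalClosure hy, rfl⟩
      · rintro g hg _ ⟨y, hy, rfl⟩
        exact ⟨⟨g, hg⟩ * y * ⟨g, hg⟩⁻¹, Subgroup.normalClosure_normal.conj_mem y hy ⟨g, hg⟩, rfl⟩
    rw [eq_top_iff]
    rintro x -
    obtain ⟨y, hy, hxy⟩ := h1 x.2
    have e : y = x := Subtype.ext hxy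
    rwa [← e]
  ne := by
    intro h
    have h1 : (⟨_, A_mem 0⟩ : GG) ∈ HH.subgroupOf GG := by rw [h]; exact Subgroup.mem_top _
    exact A_not_mem h1

end Pool.Agent.Helper12.EP
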