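import Mathlib

/-!
# EP: transvections of free groups
-/

set_option autoImplicit false

namespace Pool.Agent.Helper12.EP

open FreeGroup (of)

section tv

variable {ι : Type}

open Classical in
/-- the endomorphism `t ↦ t w` of the free group -/
noncomputable def tvE (t : ι) (w : FreeGroup ι) : FreeGroup ι →* FreeGroup ι :=
  FreeGroup.lift fun s => if s = t then of t * w else of s

theorem tvE_same (t : ι) (w : FreeGroup ι) : tvE t w (of t) = of t * w := by
  rw [tvE, FreeGroup.lift_apply_of, if_pos rfl]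

theorem tvE_ne {t s : ι} (h : s ≠ t) (w : FreeGroup ι) : tvE t w (of s) = of s := by
  rw [tvE, FreeGroup.lift_apply_of, if_neg h]

/-- the elements which do not involve the letter `t` -/
def NI (t : ι) : Subgroup (FreeGroup ι) where
  carrier := {w | ∀ v, tvE t v w = w}
  one_mem' := fun v => map_one _
  mul_mem' := fun ha hb v => by rw [map_mul, ha v, hb v]
  inv_mem' := fun ha v => by rw [map_inv, ha v]

theorem of_mem_NI {t s : ι} (h : s ≠ t) : of s ∈ NI t := fun v => tvE_ne h v

theorem tvE_comp {t : ι} {w : FreeGroup ι} (hw : w ∈ NI t) (v : FreeGroup ι) :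
    (tvE t v).comp (tvE t w) = tvE t (v * w) := by
  refine FreeGroup.ext_hom _ _ fun s => ?_
  rw [MonoidHom.comp_apply]
  by_cases h : s = t
  · subst h
    rw [tvE_same, tvE_same, map_mul, tvE_same, hw v, mul_assoc]
  · rw [tvE_ne h, tvE_ne h, tvE_ne h]

theorem tvE_one (t : ι) : tvE t (1 : FreeGroup ι) = MonoidHom.id _ := by
  refine FreeGroup.ext_hom _ _ fun s => ?_
  by_cases h : s = t
  · subst h
    rw [tvE_same, mul_one, MonoidHom.id_apply]
  · rw [tvE_ne h, MonoidHom.id_apply]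

/-- the transvection `t ↦ t w`, `w` not involving `t` -/
noncomputable def tvM (t : ι) (w : FreeGroup ι) (hw : w ∈ NI t) : MulAut (FreeGroup ι) :=
  MonoidHom.toMulEquiv (tvE t w) (tvE t w⁻¹)
    (by rw [tvE_comp hw, inv_mul_cancel, tvE_one])
    (by rw [tvE_comp (inv_mem hw), mul_inv_cancel, tvE_one])

open Classical in
/-- the transvection `t ↦ t w`; the identity if `w` involves `t` -/
noncomputable def tv (t : ι) (w : FreeGroup ι) : MulAut (FreeGroup ι) :=
  if h : w ∈ NI t then tvM t w h else 1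

theorem tv_apply {t : ι} {w : FreeGroup ι} (hw : w ∈ NI t) (x : FreeGroup ι) :
    tv t w x = tvE t w x := by
  rw [tv, dif_pos hw]
  rfl

theorem tv_neg {t : ι} {w : FreeGroup ι} (hw : w ∉ NI t) : tv t w = 1 := by
  rw [tv, dif_neg hw]

theorem tv_same {t : ι} {w : FreeGroup ι} (hw : w ∈ NI t) : tv t w (of t) = of t * w := by
  rw [tv_apply hw, tvE_same]

theorem tv_of {t s : ι} (h : s ≠ t) (w : FreeGroup ι) : tv t w (of s) = of s := by
  by_cases hw : w ∈ NI t
  · rw [tv_apply hw, tvE_ne h]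
  · rw [tv_neg hw]
    rfl

theorem tv_fix {t : ι} (w : FreeGroup ι) {x : FreeGroup ι} (hx : x ∈ NI t) : tv t w x = x := by
  by_cases hw : w ∈ NI t
  · rw [tv_apply hw]
    exact hx w
  · rw [tv_neg hw]
    rfl

theorem aut_ext {φ ψ : MulAut (FreeGroup ι)} (h : ∀ s, φ (of s) = ψ (of s)) : φ = ψ := by
  have : φ.toMonoidHom = ψ.toMonoidHom := FreeGroup.ext_hom _ _ h
  exact MulEquiv.ext fun x => DFunLike.congr_fun this x

theorem tv_mul {t : ι} {v w : FreeGroup ι} (hv : v ∈ NI t) (hw : w ∈ NI t) :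
    tv t (v * w) = tv t v * tv t w := by
  refine aut_ext fun s => ?_
  rw [MulAut.mul_apply]
  by_cases h : s = t
  · subst h
    rw [tv_same (mul_mem hv hw), tv_same hw, map_mul, tv_same hv, tv_fix v hw, mul_assoc]
  · rw [tv_of h, tv_of h, tv_of h]

theorem tv_one (t : ι) : tv t (1 : FreeGroup ι) = 1 := by
  refine aut_ext fun s => ?_
  by_cases h : s = t
  · subst h
    rw [tv_same (one_mem _), mul_one]
    rfl
  · rw [tv_of h]
    rfl

theorem tv_inv {t : ι} {v : FreeGroup ι} (hv : v ∈ NI t) : tv t v⁻¹ = (tv t v)⁻¹ := by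
  rw [eq_inv_iff_mul_eq_one, ← tv_mul (inv_mem hv) hv, inv_mul_cancel, tv_one]

/-- The transvections `t ↦ t w` are commutators. -/
theorem key {t k : ι} (htk : t ≠ k) {w : FreeGroup ι} (hwt : w ∈ NI t) (hwk : w ∈ NI k) :
    tv k w * tv t (of k) = tv t (of k) * tv t w * tv k w := by
  have hk : of k ∈ NI t := of_mem_NI htk.symm
  refine aut_ext fun s => ?_
  rw [MulAut.mul_apply, MulAut.mul_apply, MulAut.mul_apply]
  by_cases h : s = t
  · subst h
    rw [tv_same hk, map_mul, tv_of htk, tv_same hwk, tv_same hwt, map_mul, tv_same hk,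
      tv_fix _ hwt, mul_assoc]
  · rw [tv_of h]
    by_cases h2 : s = k
    · subst h2
      rw [tv_same hwk, map_mul, map_mul, tv_of h, tv_of h, tv_fix _ hwt, tv_fix _ hwt]
    · rw [tv_of h2, tv_of h, tv_of h]

theorem key' {t k : ι} (htk : t ≠ k) {w : FreeGroup ι} (hwt : w ∈ NI t) (hwk : w ∈ NI k) :
    tv t w = (tv t (of k))⁻¹ * tv k w * tv t (of k) * (tv k w)⁻¹ := by
  rw [mul_assoc (tv t (of k))⁻¹, key htk hwt hwk]
  group

theorem tv_comm {t k : ι} (htk : t ≠ k) {v w : FreeGroup ι} (hvt : v ∈ NI t) (hvk : v ∈ NI k)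
    (hwk : w ∈ NI k) (hwt : w ∈ NI t) : tv t v * tv k w = tv k w * tv t v := by
  refine aut_ext fun s => ?_
  rw [MulAut.mul_apply, MulAut.mul_apply]
  by_cases h : s = t
  · subst h
    rw [tv_of htk, tv_same hvt, map_mul, tv_of htk, tv_fix _ hvk]
  · rw [tv_of h]
    by_cases h2 : s = k
    · subst h2
      rw [tv_same hwk, map_mul, tv_of h, tv_fix _ hwt]
    · rw [tv_of h2, tv_of h]

end tv

end Pool.Agent.Helper12.EP
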